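import Pool.Agent.Helper54.BF.Sys

set_option autoImplicit false

/-! Jets of an extension on the physical side. -/

noncomputable section

namespace Pool.Agent.Helper54.PH

open MeasureTheory Set Filter Topology Complex FourierTransform SchwartzMap
open Pool.Agent.Helper68.BA
open Pool.Agent.Helper54.JET (ee norm_ee continuous_ee inversion cont_fourier fourier_bdd fourier_MM)
open Pool.Agent.Helper54.PF (SO Cut Sf cut_ne fourier_Sf fourier_cut MM_L2 n2)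
open Pool.Agent.Helper54.BF (Sys Xt X0)
open scoped ContDiff SchwartzMap LineDeriv ENNReal

variable {J : Type} (Y : Sys J) {χ : ℂ → ℂ} (h : Cut χ) (f : 𝓢(ℂ, ℂ))

/-- the cut-off transform -/
def kf (χ : ℂ → ℂ) (f : 𝓢(ℂ, ℂ)) (ξ : ℂ) : ℂ := χ ξ * 𝓕 (f : ℂ → ℂ) ξ

/-- a real linear combination of jets -/
def lc (L : List (ℝ × J)) (X : J → ℂ) : ℂ := (L.map fun a => (a.1 : ℂ) * X a.2).sum

lemma lc_nil (X : J → ℂ) : lc [] X = 0 := rfl

lemma lc_cons (a : ℝ × J) (L : List (ℝ × J)) (X : J → ℂ) : lc (a :: L) X = (a.1 : ℂ) * X a.2 + lc L X := by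
  simp [lc]

lemma Sf_inv {g : ℂ → ℂ} (h : Cut χ) (hg : SO g) (z : ℂ) :
    Sf χ g f z = ∫ ξ, ee ξ z * (g ξ * kf χ f ξ) := by
  rw [inversion]
  congr 1
  funext ξ
  rw [fourier_Sf h hg, kf]

lemma integrable_sym1 {g : ℂ → ℂ} (h : Cut χ) (hg : SO g) : Integrable fun ξ => g ξ * kf χ f ξ := by
  have := fourier_integrable (Sf χ g f)
  refine this.congr (ae_of_all _ fun ξ => ?_)
  simp only [fourier_Sf h hg, kf]

lemma Xt_inv (h : Cut χ) (j : J) {t : ℝ} (ht : 0 < t) (z : ℂ) :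
    Xt Y χ f t z j = ∫ ξ, ee ξ z * (Y.S j t ξ * kf χ f ξ) := Sf_inv f h (Y.smooth j t ht) z

include h in
lemma bdS (j : J) : ∃ C δ : ℝ, 0 ≤ C ∧ 0 < δ ∧ ∀ t, 0 < t → ∀ ξ,
    ‖Y.S j t ξ * kf χ f ξ‖ ≤ C * Real.exp (-(δ * t)) * ‖𝓕 (f : ℂ → ℂ) ξ‖ := by
  obtain ⟨C, δ, hδ, hC⟩ := Y.bd χ h j
  have hC0 : 0 ≤ C := nonneg_of_mul_nonneg_left ((norm_nonneg _).trans (hC 1 one_pos 0)) (Real.exp_pos _)
  refine ⟨C, δ, hC0, hδ, fun t ht ξ => ?_⟩
  have e : Y.S j t ξ * kf χ f ξ = (χ ξ * Y.S j t ξ) * 𝓕 (f : ℂ → ℂ) ξ := by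
    rw [kf]
    ring
  rw [e, norm_mul]
  exact mul_le_mul_of_nonneg_right (hC t ht ξ) (norm_nonneg _)

include h in
lemma bdS' (j : J) : ∃ C : ℝ, 0 ≤ C ∧ ∀ t, 0 < t → ∀ ξ,
    ‖Y.S j t ξ * kf χ f ξ‖ ≤ C * ‖𝓕 (f : ℂ → ℂ) ξ‖ := by
  obtain ⟨C, δ, hC0, hδ, hC⟩ := bdS Y h f j
  refine ⟨C, hC0, fun t ht ξ => (hC t ht ξ).trans ?_⟩
  refine mul_le_mul_of_nonneg_right ?_ (norm_nonneg _)
  refine mul_le_of_le_one_right hC0 (Real.exp_le_one_iff.2 ?_)
  have := mul_pos hδ ht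
  linarith

include h in
lemma bdL (L : List (ℝ × J)) : ∃ C : ℝ, 0 ≤ C ∧ ∀ t, 0 < t → ∀ ξ,
    ‖lc L (fun j => Y.S j t ξ) * kf χ f ξ‖ ≤ C * ‖𝓕 (f : ℂ → ℂ) ξ‖ := by
  induction L with
  | nil => exact ⟨0, le_rfl, fun t _ ξ => by simp [lc]⟩
  | cons a L ih =>
    obtain ⟨C, hC0, hC⟩ := ih
    obtain ⟨C', hC0', hC'⟩ := bdS' Y h f a.2
    refine ⟨|a.1| * C' + C, by positivity, fun t ht ξ => ?_⟩
    have e : lc (a :: L) (fun j => Y.S j t ξ) * kf χ f ξ = (a.1 : ℂ) * (Y.S a.2 t ξ * kf χ f ξ) +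
        lc L (fun j => Y.S j t ξ) * kf χ f ξ := by
      rw [lc_cons]
      ring
    rw [e, add_mul]
    refine (norm_add_le _ _).trans (add_le_add ?_ (hC t ht ξ))
    rw [norm_mul, Complex.norm_real, Real.norm_eq_abs, mul_assoc]
    exact mul_le_mul_of_nonneg_left (hC' t ht ξ) (abs_nonneg _)

include h in
lemma lc_int (L : List (ℝ × J)) {t : ℝ} (ht : 0 < t) (z : ℂ) :
    Integrable (fun ξ => ee ξ z * (lc L (fun j => Y.S j t ξ) * kf χ f ξ)) ∧
    lc L (Xt Y χ f t z) = ∫ ξ, ee ξ z * (lc L (fun j => Y.S j t ξ) * kf χ f ξ) := by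
  induction L with
  | nil => simp [lc]
  | cons a L ih =>
    have e : (fun ξ => ee ξ z * (lc (a :: L) (fun j => Y.S j t ξ) * kf χ f ξ)) =
        fun ξ => (a.1 : ℂ) * (ee ξ z * (Y.S a.2 t ξ * kf χ f ξ)) +
          ee ξ z * (lc L (fun j => Y.S j t ξ) * kf χ f ξ) := by
      funext ξ
      rw [lc_cons]
      ring
    rw [e]
    have h1 : Integrable fun ξ => ee ξ z * (Y.S a.2 t ξ * kf χ f ξ) := by
      have h2 := integrable_sym1 f h (Y.smooth a.2 t ht)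
      refine h2.norm.mono' ?_ (ae_of_all _ fun ξ => ?_)
      · refine AEStronglyMeasurable.mul ?_ h2.aestronglyMeasurable
        have := continuous_ee.comp (Continuous.prodMk continuous_id (continuous_const (y := z)))
        exact this.aestronglyMeasurable
      · rw [norm_mul, norm_ee, one_mul]
    refine ⟨(h1.const_mul _).add ih.1, ?_⟩
    rw [integral_add (h1.const_mul _) ih.1, lc_cons, ih.2, integral_const_mul, Xt_inv Y f h a.2 ht]

include h in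
lemma hasDerivAt_Xt (j : J) (z : ℂ) {t : ℝ} (ht : 0 < t) :
    HasDerivAt (fun t => Xt Y χ f t z j) (lc (Y.D j) (Xt Y χ f t z) / (t : ℂ)) t := by
  obtain ⟨C, hC0, hC⟩ := bdL Y h f (Y.D j)
  have ht2 : 0 < t / 2 := by linarith
  have mes : ∀ s, 0 < s → AEStronglyMeasurable (fun ξ => ee ξ z * (Y.S j s ξ * kf χ f ξ))
      (volume : Measure ℂ) := by
    intro s hs
    have h1 := (lc_int Y h f [(1, j)] hs z).1
    refine h1.aestronglyMeasurable.congr (ae_of_all _ fun ξ => ?_)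
    simp [lc]
  have int1 : ∀ s, 0 < s → Integrable (fun ξ => ee ξ z * (Y.S j s ξ * kf χ f ξ)) := by
    intro s hs
    have h1 := (lc_int Y h f [(1, j)] hs z).1
    refine h1.congr (ae_of_all _ fun ξ => ?_)
    simp [lc]
  have hI := lc_int Y h f (Y.D j) ht z
  have key := hasDerivAt_integral_of_dominated_loc_of_deriv_le (𝕜 := ℝ) (μ := (volume : Measure ℂ))
    (F := fun s ξ => ee ξ z * (Y.S j s ξ * kf χ f ξ))
    (F' := fun s ξ => ee ξ z * (lc (Y.D j) (fun j => Y.S j s ξ) * kf χ f ξ) / (s : ℂ))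
    (x₀ := t) (s := Ioi (t / 2)) (bound := fun ξ => (C * ‖𝓕 (f : ℂ → ℂ) ξ‖) * (t / 2)⁻¹)
    (Ioi_mem_nhds (by linarith))
    (by
      filter_upwards [Ioi_mem_nhds ht] with s hs
      exact mes s hs)
    (int1 t ht)
    (by
      have := hI.1.aestronglyMeasurable.mul_const ((t : ℂ)⁻¹)
      simpa only [div_eq_mul_inv] using this)
    (ae_of_all _ fun ξ s hs => by
      have hs0 : 0 < s := lt_trans ht2 hs
      rw [norm_div, norm_mul, norm_ee, one_mul, Complex.norm_real, Real.norm_eq_abs,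
        abs_of_pos hs0, div_eq_mul_inv]
      refine mul_le_mul (hC s hs0 ξ) ?_ (by positivity) (by positivity)
      exact inv_anti₀ ht2 (le_of_lt hs))
    (((fourier_integrable f).norm.const_mul C).mul_const _)
    (ae_of_all _ fun ξ s hs => by
      by_cases hk : kf χ f ξ = 0
      · simp only [hk, mul_zero, zero_div]
        exact hasDerivAt_const s 0
      · have hχ : χ ξ ≠ 0 := fun h0 => hk (by rw [kf, h0, zero_mul])
        have d := Y.der j ξ (cut_ne h hχ) s (lt_trans ht2 hs)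
        have d2 := (d.mul_const (kf χ f ξ)).const_mul (ee ξ z)
        refine d2.congr_deriv ?_
        simp only [lc]
        ring)
  have h4 := key.2
  have e : ∫ ξ, ee ξ z * (lc (Y.D j) (fun j => Y.S j t ξ) * kf χ f ξ) / (t : ℂ) =
      lc (Y.D j) (Xt Y χ f t z) / (t : ℂ) := by
    rw [hI.2, integral_div]
  rw [e] at h4
  refine h4.congr_of_eventuallyEq ?_
  filter_upwards [Ioi_mem_nhds ht] with s hs
  exact Xt_inv Y f h j hs z

include h in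
lemma continuousOn_Xt (j : J) :
    ContinuousOn (fun p : ℝ × ℂ => Xt Y χ f p.1 p.2 j) (Ioi 0 ×ˢ univ) := by
  obtain ⟨C, hC0, hC⟩ := bdS' Y h f j
  have key : ContinuousOn (fun p : ℝ × ℂ => ∫ ξ, ee ξ p.2 * (Y.S j p.1 ξ * kf χ f ξ)) (Ioi 0 ×ˢ univ) := by
    intro p hp
    have hp1 : 0 < p.1 := hp.1
    apply ContinuousAt.continuousWithinAt
    refine continuousAt_of_dominated (bound := fun ξ => C * ‖𝓕 (f : ℂ → ℂ) ξ‖) ?_ ?_
      ((fourier_integrable f).norm.const_mul C) (ae_of_all _ fun ξ => ?_)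
    · have : ∀ᶠ q : ℝ × ℂ in 𝓝 p, 0 < q.1 :=
        (continuous_fst.tendsto p).eventually (Ioi_mem_nhds hp1)
      filter_upwards [this] with q hq
      have h1 := (lc_int Y h f [(1, j)] hq q.2).1
      refine h1.aestronglyMeasurable.congr (ae_of_all _ fun ξ => ?_)
      simp [lc]
    · have : ∀ᶠ q : ℝ × ℂ in 𝓝 p, 0 < q.1 :=
        (continuous_fst.tendsto p).eventually (Ioi_mem_nhds hp1)
      filter_upwards [this] with q hq
      refine ae_of_all _ fun ξ => ?_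
      rw [norm_mul, norm_ee, one_mul]
      exact hC q.1 hq ξ
    · have c1 : ContinuousAt (fun q : ℝ × ℂ => ee ξ q.2) p :=
        (continuous_ee.comp (Continuous.prodMk continuous_const continuous_snd)).continuousAt
      by_cases hk : kf χ f ξ = 0
      · simp only [hk, mul_zero]
        exact continuousAt_const
      · have hχ : χ ξ ≠ 0 := fun h0 => hk (by rw [kf, h0, zero_mul])
        have d := (Y.der j ξ (cut_ne h hχ) p.1 hp1).continuousAt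
        have c2 : ContinuousAt (fun q : ℝ × ℂ => Y.S j q.1 ξ) p :=
          ContinuousAt.comp (f := Prod.fst) (g := fun t => Y.S j t ξ) d continuous_fst.continuousAt
        exact c1.mul (c2.mul continuousAt_const)
  refine key.congr fun p hp => ?_
  exact Xt_inv Y f h j hp.1 p.2

include h in
lemma sup_Xt (j : J) : ∃ R : ℝ, 0 ≤ R ∧ ∀ t, 0 < t → ∀ z, ‖Xt Y χ f t z j‖ ≤ R := by
  obtain ⟨C, hC0, hC⟩ := bdS' Y h f j
  refine ⟨∫ ξ, C * ‖𝓕 (f : ℂ → ℂ) ξ‖, integral_nonneg fun _ => by positivity, fun t ht z => ?_⟩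
  rw [Xt_inv Y f h j ht]
  refine norm_integral_le_of_norm_le ((fourier_integrable f).norm.const_mul C)
    (ae_of_all _ fun ξ => ?_)
  rw [norm_mul, norm_ee, one_mul]
  exact hC t ht ξ

lemma integrable_sq_Sf (g : ℂ → ℂ) : Integrable fun z => ‖Sf χ g f z‖ ^ 2 := by
  have h1 := (Sf χ g f).memLp 2 (volume : Measure ℂ)
  exact (memLp_two_iff_integrable_sq_norm h1.1).1 h1

include h in
lemma sq_Sf {g : ℂ → ℂ} (hg : SO g) : ∫ z, ‖Sf χ g f z‖ ^ 2 = ∫ ξ, ‖g ξ * kf χ f ξ‖ ^ 2 := by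
  rw [Sf, MM_L2 (h.mul hg).tg, n2]
  congr 1
  funext ξ
  rw [kf]
  congr 2
  ring

include h in
lemma sq_Xt (j : J) : ∃ C δ : ℝ, 0 ≤ C ∧ 0 < δ ∧ ∀ t, 0 < t →
    ∫ z, ‖Xt Y χ f t z j‖ ^ 2 ≤ C * Real.exp (-(δ * t)) := by
  obtain ⟨C, δ, hC0, hδ, hC⟩ := bdS Y h f j
  refine ⟨C ^ 2 * ∫ ξ, ‖𝓕 (f : ℂ → ℂ) ξ‖ ^ 2, δ, ?_, hδ, fun t ht => ?_⟩
  · exact mul_nonneg (by positivity) (integral_nonneg fun _ => by positivity)
  have e1 : ∫ z, ‖Xt Y χ f t z j‖ ^ 2 = ∫ ξ, ‖Y.S j t ξ * kf χ f ξ‖ ^ 2 := sq_Sf h f (Y.smooth j t ht)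
  have hs := fourier_sq_integrable f
  have e2 : C ^ 2 * (∫ ξ, ‖𝓕 (f : ℂ → ℂ) ξ‖ ^ 2) * Real.exp (-(δ * t)) =
      ∫ ξ, C ^ 2 * Real.exp (-(δ * t)) * ‖𝓕 (f : ℂ → ℂ) ξ‖ ^ 2 := by
    rw [integral_const_mul]
    ring
  rw [e1, e2]
  have hle : ∀ ξ, ‖Y.S j t ξ * kf χ f ξ‖ ^ 2 ≤ C ^ 2 * Real.exp (-(δ * t)) * ‖𝓕 (f : ℂ → ℂ) ξ‖ ^ 2 := by
    intro ξ
    have h1 := pow_le_pow_left₀ (norm_nonneg _) (hC t ht ξ) 2
    refine h1.trans ?_
    have h2 : Real.exp (-(δ * t)) ^ 2 ≤ Real.exp (-(δ * t)) := by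
      have h3 : Real.exp (-(δ * t)) ≤ 1 := Real.exp_le_one_iff.2 (by have := mul_pos hδ ht; linarith)
      have h4 := Real.exp_pos (-(δ * t))
      nlinarith
    have e3 : (C * Real.exp (-(δ * t)) * ‖𝓕 (f : ℂ → ℂ) ξ‖) ^ 2 =
        (C ^ 2 * ‖𝓕 (f : ℂ → ℂ) ξ‖ ^ 2) * Real.exp (-(δ * t)) ^ 2 := by ring
    have e4 : C ^ 2 * Real.exp (-(δ * t)) * ‖𝓕 (f : ℂ → ℂ) ξ‖ ^ 2 =
        (C ^ 2 * ‖𝓕 (f : ℂ → ℂ) ξ‖ ^ 2) * Real.exp (-(δ * t)) := by ring
    rw [e3, e4]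
    exact mul_le_mul_of_nonneg_left h2 (by positivity)
  refine integral_mono_of_nonneg (ae_of_all _ fun ξ => by positivity) (hs.const_mul _)
    (ae_of_all _ hle)

include h in
lemma sq_lc (L : List (ℝ × J)) : ∃ C : ℝ, 0 ≤ C ∧ ∀ t, 0 < t →
    Integrable (fun z => ‖lc L (Xt Y χ f t z)‖ ^ 2) ∧ ∫ z, ‖lc L (Xt Y χ f t z)‖ ^ 2 ≤ C := by
  induction L with
  | nil => exact ⟨0, le_rfl, fun t _ => by simp [lc]⟩
  | cons a L ih =>
    obtain ⟨C, hC0, hC⟩ := ih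
    obtain ⟨C', δ, hC0', hδ, hC'⟩ := sq_Xt Y h f a.2
    refine ⟨2 * (a.1 ^ 2 * C') + 2 * C, by positivity, fun t ht => ?_⟩
    obtain ⟨i1, b1⟩ := hC t ht
    have b2 : ∫ z, ‖Xt Y χ f t z a.2‖ ^ 2 ≤ C' := by
      refine (hC' t ht).trans (mul_le_of_le_one_right hC0' (Real.exp_le_one_iff.2 ?_))
      have := mul_pos hδ ht
      linarith
    have i2 : Integrable fun z => ‖Xt Y χ f t z a.2‖ ^ 2 := integrable_sq_Sf f _
    have hle : ∀ z, ‖lc (a :: L) (Xt Y χ f t z)‖ ^ 2 ≤ 2 * (a.1 ^ 2 * ‖Xt Y χ f t z a.2‖ ^ 2) +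
        2 * ‖lc L (Xt Y χ f t z)‖ ^ 2 := by
      intro z
      rw [lc_cons]
      have h1 := norm_add_le ((a.1 : ℂ) * Xt Y χ f t z a.2) (lc L (Xt Y χ f t z))
      have h2 : ‖(a.1 : ℂ) * Xt Y χ f t z a.2‖ = |a.1| * ‖Xt Y χ f t z a.2‖ := by
        rw [norm_mul, Complex.norm_real, Real.norm_eq_abs]
      rw [h2] at h1
      have h3 := pow_le_pow_left₀ (norm_nonneg _) h1 2
      have h4 : (|a.1| * ‖Xt Y χ f t z a.2‖) ^ 2 = a.1 ^ 2 * ‖Xt Y χ f t z a.2‖ ^ 2 := by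
        rw [mul_pow, sq_abs]
      nlinarith [sq_nonneg (|a.1| * ‖Xt Y χ f t z a.2‖ - ‖lc L (Xt Y χ f t z)‖)]
    have i3 := ((i2.const_mul (a.1 ^ 2)).const_mul 2).add (i1.const_mul 2)
    have mes : Continuous fun z => lc (a :: L) (Xt Y χ f t z) := by
      have : ∀ L : List (ℝ × J), Continuous fun z => lc L (Xt Y χ f t z) := by
        intro L
        induction L with
        | nil => exact continuous_const
        | cons b L ih =>
          have e : (fun z => lc (b :: L) (Xt Y χ f t z)) =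
              fun z => (b.1 : ℂ) * Xt Y χ f t z b.2 + lc L (Xt Y χ f t z) := by
            funext z
            rw [lc_cons]
          rw [e]
          exact (continuous_const.mul (Sf χ (Y.S b.2 t) f).continuous).add ih
      exact this _
    have i4 : Integrable fun z => ‖lc (a :: L) (Xt Y χ f t z)‖ ^ 2 := by
      refine i3.mono' ((mes.norm.pow 2).aestronglyMeasurable) (ae_of_all _ fun z => ?_)
      rw [Real.norm_of_nonneg (by positivity)]
      exact hle z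
    have e5 : ∫ z, (2 * (a.1 ^ 2 * ‖Xt Y χ f t z a.2‖ ^ 2) + 2 * ‖lc L (Xt Y χ f t z)‖ ^ 2) =
        2 * (a.1 ^ 2 * ∫ z, ‖Xt Y χ f t z a.2‖ ^ 2) + 2 * ∫ z, ‖lc L (Xt Y χ f t z)‖ ^ 2 := by
      rw [integral_add ((i2.const_mul (a.1 ^ 2)).const_mul 2) (i1.const_mul 2), integral_const_mul,
        integral_const_mul, integral_const_mul]
    refine ⟨i4, (integral_mono i4 i3 hle).trans ((le_of_eq e5).trans ?_)⟩
    have := mul_le_mul_of_nonneg_left b2 (sq_nonneg a.1)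
    linarith

include h in
lemma lc_continuousOn (L : List (ℝ × J)) :
    ContinuousOn (fun p : ℝ × ℂ => lc L (Xt Y χ f p.1 p.2)) (Ioi 0 ×ˢ univ) := by
  induction L with
  | nil => exact continuousOn_const
  | cons a L ih =>
    have e : (fun p : ℝ × ℂ => lc (a :: L) (Xt Y χ f p.1 p.2)) =
        fun p => (a.1 : ℂ) * Xt Y χ f p.1 p.2 a.2 + lc L (Xt Y χ f p.1 p.2) := by
      funext p
      rw [lc_cons]
    rw [e]
    exact (continuousOn_const.mul (continuousOn_Xt Y h f a.2)).add ih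

end Pool.Agent.Helper54.PH
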