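import Pool.Agent.Helper54.PH.Fr
import Pool.Agent.Helper54.BF.Fin

set_option autoImplicit false

/-! The frame theorem for real `p`, frozen form. -/

noncomputable section

namespace Pool.Agent.Helper54.PH

open MeasureTheory Set Filter Topology Complex FourierTransform SchwartzMap
open Pool.Agent.Helper54.PF (SO Cut Sf cut_ne WW toFrozen MM_Lp)
open Pool.Agent.Helper54.BF (Sys Xt X0 Jb Db urb ulb sysB Sb0)
open scoped ContDiff SchwartzMap LineDeriv ENNReal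

/-- `‖F‖^p` is integrable -/
lemma integrable_rpow (F : 𝓢(ℂ, ℂ)) {p : ℝ} (hp : 1 ≤ p) : Integrable fun z => ‖F z‖ ^ p := by
  have hp0 : 0 < p := by linarith
  have h1 := F.memLp (ENNReal.ofReal p) (volume : Measure ℂ)
  have h2 := h1.integrable_norm_rpow (by simpa using hp0) ENNReal.ofReal_ne_top
  rwa [ENNReal.toReal_ofReal hp0.le] at h2

lemma eLpNorm_rpow (F : 𝓢(ℂ, ℂ)) {p : ℝ} (hp : 1 ≤ p) : eLpNorm F (ENNReal.ofReal p) volume =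
    ENNReal.ofReal ((∫ z, ‖F z‖ ^ p) ^ (1 / p)) := by
  have hp0 : 0 < p := by linarith
  rw [eLpNorm_eq_lintegral_rpow_enorm_toReal (by simpa using hp0) ENNReal.ofReal_ne_top,
    ENNReal.toReal_ofReal hp0.le]
  have h1 : ∀ z, ‖F z‖ₑ ^ p = ENNReal.ofReal (‖F z‖ ^ p) := by
    intro z
    rw [← ofReal_norm, ENNReal.ofReal_rpow_of_nonneg (norm_nonneg _) hp0.le]
  simp only [h1]
  rw [← ofReal_integral_eq_lintegral_ofReal (integrable_rpow F hp)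
    (ae_of_all _ fun z => Real.rpow_nonneg (norm_nonneg _) _),
    ENNReal.ofReal_rpow_of_nonneg (integral_nonneg fun z => Real.rpow_nonneg (norm_nonneg _) _)
      (by positivity)]

lemma p_bound (F G : 𝓢(ℂ, ℂ)) {p : ℝ} (hp : 1 ≤ p) (A B C : ℝ) (hB : 0 < B) (hC : 0 ≤ C)
    (hA : A ≤ B * C ^ p) (h : B * ∫ z, ‖F z‖ ^ p ≤ A * ∫ z, ‖G z‖ ^ p) :
    eLpNorm F (ENNReal.ofReal p) volume ≤ ENNReal.ofReal C * eLpNorm G (ENNReal.ofReal p) volume := by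
  have hp0 : 0 < p := by linarith
  have hF : 0 ≤ ∫ z, ‖F z‖ ^ p := integral_nonneg fun z => Real.rpow_nonneg (norm_nonneg _) _
  have hG : 0 ≤ ∫ z, ‖G z‖ ^ p := integral_nonneg fun z => Real.rpow_nonneg (norm_nonneg _) _
  rw [eLpNorm_rpow F hp, eLpNorm_rpow G hp, ← ENNReal.ofReal_mul hC]
  apply ENNReal.ofReal_le_ofReal
  have h1 : ∫ z, ‖F z‖ ^ p ≤ C ^ p * ∫ z, ‖G z‖ ^ p := by
    have h2 : B * ∫ z, ‖F z‖ ^ p ≤ B * (C ^ p * ∫ z, ‖G z‖ ^ p) := by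
      refine h.trans ?_
      rw [← mul_assoc]
      exact mul_le_mul_of_nonneg_right hA hG
    exact le_of_mul_le_mul_left h2 hB
  calc (∫ z, ‖F z‖ ^ p) ^ (1 / p) ≤ (C ^ p * ∫ z, ‖G z‖ ^ p) ^ (1 / p) :=
        Real.rpow_le_rpow hF h1 (by positivity)
    _ = C * (∫ z, ‖G z‖ ^ p) ^ (1 / p) := by
        rw [Real.mul_rpow (Real.rpow_nonneg hC _) hG, ← Real.rpow_mul hC, mul_one_div_cancel hp0.ne',
          Real.rpow_one]

variable {ι : Type} [Fintype ι] {J : Type} (Y : Sys J) (e : ι → J)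

/-- a certificate: an admissible functional with nonnegative dissipation up to divergences -/
def Cert (U : (ι → ℂ) → ℝ) : Prop :=
  ∃ (U' : (ι → ℂ) → ((ι → ℂ) →L[ℝ] ℝ)) (M1 M2 : (ι → ℂ) → ℝ)
    (M1' M2' : (ι → ℂ) → ((ι → ℂ) →L[ℝ] ℝ)), Adm U U' ∧ Adm M1 M1' ∧ Adm M2 M2' ∧
    ∀ X : J → ℂ, U' (fun i => X (e i)) (fun i => lc (Y.D (e i)) X) ≤
      M1' (fun i => X (e i)) (fun i => X (Y.ur (e i)) - X (Y.ul (e i))) +
      M2' (fun i => X (e i)) (fun i => I * (X (Y.ur (e i)) + X (Y.ul (e i))))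

/-- FRAME THEOREM for real `p`, for an abstract system of jets -/
theorem frameG (n : ℕ) (p : ℝ) (hp : 2 ≤ p) (Z : J → Prop)
    (hZ : ∀ j, Z j → ∀ ξ, ξ ≠ 0 → Y.S0 j ξ = 0) (a b : J)
    (ha : ∀ ξ, ξ ≠ 0 → Y.S0 a ξ = 1)
    (hb : ∀ ξ, ξ ≠ 0 → Y.S0 b ξ = Pool.Agent.Helper54.PF.un ξ ^ (2 * (n : ℤ)))
    (A B C : ℝ) (hB : 0 < B) (hC : 0 ≤ C) (hA : A ≤ B * C ^ p)
    (hU : ∀ R η : ℝ, 0 < η → ∃ U : (ι → ℂ) → ℝ, Cert Y e U ∧
      ∀ X : J → ℂ, (∀ j, Z j → X j = 0) → (∀ i, ‖X (e i)‖ ≤ R) →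
        U (fun i => X (e i)) + B * ‖X b‖ ^ p ≤ A * ‖X a‖ ^ p + η * ∑ i, ‖X (e i)‖ ^ 2)
    (f : 𝓢(ℂ, ℂ)) :
    eLpNorm
        (fun z : ℂ => ∫ ξ : ℂ,
          Complex.exp (2 * (Real.pi : ℂ) * Complex.I * ((z.re * ξ.re + z.im * ξ.im : ℝ) : ℂ)) *
            ((starRingEnd ℂ ξ / ξ) ^ n *
              ∫ w : ℂ, Complex.exp (-(2 * (Real.pi : ℂ) * Complex.I *
                ((w.re * ξ.re + w.im * ξ.im : ℝ) : ℂ))) * f w))
        (ENNReal.ofReal p) MeasureTheory.volume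
      ≤ ENNReal.ofReal C *
        MeasureTheory.eLpNorm (fun z : ℂ => f z) (ENNReal.ofReal p) MeasureTheory.volume := by
  refine toFrozen n p hp C (fun χ h g => ?_) f
  have hp1 : 1 ≤ p := by linarith
  have key : B * ∫ z, ‖Sf χ (Y.S0 b) g z‖ ^ p ≤ A * ∫ z, ‖Sf χ (Y.S0 a) g z‖ ^ p := by
    obtain ⟨R, hR0, hR⟩ := sup_Z0 Y h g e
    set K : ℝ := ∫ z, ∑ i, ‖Z0 Y χ g e z i‖ ^ 2 with hK
    have hK0 : 0 ≤ K := integral_nonneg fun z => Finset.sum_nonneg fun i _ => by positivity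
    have main : ∀ η : ℝ, 0 < η → B * ∫ z, ‖Sf χ (Y.S0 b) g z‖ ^ p ≤
        A * (∫ z, ‖Sf χ (Y.S0 a) g z‖ ^ p) + η * K := by
      intro η hη
      obtain ⟨U, ⟨U', M1, M2, M1', M2', hU1, hM1, hM2, hR1⟩, hle⟩ := hU R η hη
      have h0 := core Y h g e hU1 hM1 hM2 hR1
      have hz : ∀ z j, Z j → X0 Y χ g z j = 0 := by
        intro z j hj
        have e1 : (fun ξ => χ ξ * Y.S0 j ξ) = fun _ => 0 := by
          funext ξ
          by_cases hχ : χ ξ = 0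
          · rw [hχ, zero_mul]
          · rw [hZ j hj ξ (cut_ne h hχ), mul_zero]
        have e2 : Sf χ (Y.S0 j) g = 0 := by
          rw [Sf, e1]
          have h3 : (fun _ : ℂ => (0 : ℂ)) = (0 : ℂ) • (fun _ : ℂ => (1 : ℂ)) := by
            funext ξ
            simp
          rw [h3, Pool.Agent.Helper68.BA.MM_smul (Function.HasTemperateGrowth.const 1)]
          simp
        show Sf χ (Y.S0 j) g z = 0
        rw [e2]
        rfl
      have hpt : ∀ z, U (Z0 Y χ g e z) + B * ‖Sf χ (Y.S0 b) g z‖ ^ p ≤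
          A * ‖Sf χ (Y.S0 a) g z‖ ^ p + η * ∑ i, ‖Z0 Y χ g e z i‖ ^ 2 := fun z =>
        hle (X0 Y χ g z) (hz z) fun i => (norm_le_pi_norm (Z0 Y χ g e z) i).trans (hR z)
      have i1 := integrable_U0 Y h g e hU1
      have i2 := (integrable_rpow (Sf χ (Y.S0 b) g) hp1).const_mul B
      have i3 := (integrable_rpow (Sf χ (Y.S0 a) g) hp1).const_mul A
      have i4 := (integrable_N0 (χ := χ) Y g e).const_mul η
      have h2 : ∫ z, (U (Z0 Y χ g e z) + B * ‖Sf χ (Y.S0 b) g z‖ ^ p) ≤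
          ∫ z, (A * ‖Sf χ (Y.S0 a) g z‖ ^ p + η * ∑ i, ‖Z0 Y χ g e z i‖ ^ 2) :=
        integral_mono (i1.add i2) (i3.add i4) hpt
      rw [integral_add i1 i2, integral_add i3 i4, integral_const_mul, integral_const_mul,
        integral_const_mul] at h2
      linarith
    have h2 : Tendsto (fun η : ℝ => A * (∫ z, ‖Sf χ (Y.S0 a) g z‖ ^ p) + η * K) (𝓝[>] 0)
        (𝓝 (A * (∫ z, ‖Sf χ (Y.S0 a) g z‖ ^ p) + 0 * K)) := by
      apply Tendsto.mono_left _ nhdsWithin_le_nhds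
      exact (tendsto_id.mul_const K).const_add _
    rw [zero_mul, add_zero] at h2
    refine ge_of_tendsto h2 ?_
    filter_upwards [self_mem_nhdsWithin] with η hη
    exact main η hη
  have same : ∀ (g1 g2 : ℂ → ℂ), (∀ ξ, ξ ≠ 0 → g1 ξ = g2 ξ) → Sf χ g1 g = Sf χ g2 g := by
    intro g1 g2 h12
    rw [Sf, Sf]
    congr 2
    funext ξ
    by_cases hχ : χ ξ = 0
    · rw [hχ, zero_mul, zero_mul]
    · rw [h12 ξ (cut_ne h hχ)]
  have e1 : Sf χ (Y.S0 a) g = WW χ g 0 (0, 0) := by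
    rw [WW]
    refine same _ _ fun ξ hξ => ?_
    rw [ha ξ hξ]
    simp [Pool.Agent.Helper54.PF.sy, Pool.Agent.Helper54.PF.sW]
  have e2 : Sf χ (Y.S0 b) g = WW χ g 0 (0, 2 * (n : ℤ)) := by
    rw [WW]
    refine same _ _ fun ξ hξ => ?_
    rw [hb ξ hξ]
    simp [Pool.Agent.Helper54.PF.sy, Pool.Agent.Helper54.PF.sW]
  rw [e1, e2] at key
  exact p_bound _ _ hp1 A B C hB hC hA key

/-- dissipation inequality for the jets of the Bessel extension -/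
def CertB (s : ℝ) (e : ι → Jb) (U : (ι → ℂ) → ℝ) : Prop :=
  ∃ (U' : (ι → ℂ) → ((ι → ℂ) →L[ℝ] ℝ)) (M1 M2 : (ι → ℂ) → ℝ)
    (M1' M2' : (ι → ℂ) → ((ι → ℂ) →L[ℝ] ℝ)), Adm U U' ∧ Adm M1 M1' ∧ Adm M2 M2' ∧
    ∀ X : Jb → ℂ, U' (fun i => X (e i)) (fun i => lc (Db s (e i)) X) ≤
      M1' (fun i => X (e i)) (fun i => X (urb (e i)) - X (ulb (e i))) +
      M2' (fun i => X (e i)) (fun i => I * (X (urb (e i)) + X (ulb (e i))))

/-- FRAME THEOREM for real `p`, Bessel extension of parameter `s > 1` -/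
theorem frameP (s : ℝ) (hs : 1 < s) (n : ℕ) (p : ℝ) (hp : 2 ≤ p) (e : ι → Jb)
    (A B C : ℝ) (hB : 0 < B) (hC : 0 ≤ C) (hA : A ≤ B * C ^ p)
    (hU : ∀ R η : ℝ, 0 < η → ∃ U : (ι → ℂ) → ℝ, CertB s e U ∧
      ∀ X : Jb → ℂ, (∀ j : Jb, j.1 ≠ 0 ∨ j.2.2 = true → X j = 0) → (∀ i, ‖X (e i)‖ ≤ R) →
        U (fun i => X (e i)) + B * ‖X (0, 2 * (n : ℤ), false)‖ ^ p ≤
          A * ‖X (0, 0, false)‖ ^ p + η * ∑ i, ‖X (e i)‖ ^ 2)
    (f : 𝓢(ℂ, ℂ)) :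
    eLpNorm
        (fun z : ℂ => ∫ ξ : ℂ,
          Complex.exp (2 * (Real.pi : ℂ) * Complex.I * ((z.re * ξ.re + z.im * ξ.im : ℝ) : ℂ)) *
            ((starRingEnd ℂ ξ / ξ) ^ n *
              ∫ w : ℂ, Complex.exp (-(2 * (Real.pi : ℂ) * Complex.I *
                ((w.re * ξ.re + w.im * ξ.im : ℝ) : ℂ))) * f w))
        (ENNReal.ofReal p) MeasureTheory.volume
      ≤ ENNReal.ofReal C *
        MeasureTheory.eLpNorm (fun z : ℂ => f z) (ENNReal.ofReal p) MeasureTheory.volume := by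
  refine frameG (sysB (Pool.Agent.Helper65.BF.ext_exists s hs)) e n p hp
    (fun j => j.1 ≠ 0 ∨ j.2.2 = true) ?_ (0, 0, false) (0, 2 * (n : ℤ), false) ?_ ?_ A B C hB hC hA
    hU f
  · intro j hj ξ _
    show Sb0 j ξ = 0
    rw [Sb0, if_neg]
    rintro ⟨h1, h2⟩
    rcases hj with hj | hj
    · exact hj h1
    · rw [h2] at hj
      exact Bool.false_ne_true hj
  · intro ξ _
    show Sb0 (0, 0, false) ξ = 1
    simp [Sb0]
  · intro ξ _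
    show Sb0 (0, 2 * (n : ℤ), false) ξ = _
    simp [Sb0]

end Pool.Agent.Helper54.PH
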