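import Pool.Agent.Helper54.BF.Form

set_option autoImplicit false

/-! Forms with any number of factors over an abstract type of jets: combinatorial definitions. -/

namespace Pool.Agent.Helper54.PH

open Pool.Agent.Helper54.BF (Jb)

/-- a monomial: the list of its factors, `(false, j)` is `X j`, `(true, j)` is `conj (X j)` -/
abbrev Mn (J : Type) : Type := List (Bool × J)

/-- a form with coefficients in `R` -/
abbrev Fk (R J : Type) : Type := List (R × Mn J)

section

variable {R J : Type} [Ring R]

/-- multiply by a constant -/
def sc (a : R) (L : Fk R J) : Fk R J := L.map fun c => (a * c.1, c.2)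

/-- multiply by a factor -/
def consF (a : Bool × J) (L : Fk R J) : Fk R J := L.map fun r => (r.1, a :: r.2)

/-- the derivation `D` applied to one term -/
def der1 (D : J → List (R × J)) (c : R) : Mn J → Fk R J
  | [] => []
  | a :: q => ((D a.2).map fun b => (c * b.1, (a.1, b.2) :: q)) ++ consF a (der1 D c q)

/-- the derivation `D` applied to a form -/
def apD (D : J → List (R × J)) (L : Fk R J) : Fk R J := L.flatMap fun r => der1 D r.1 r.2

/-- the divergence of one term -/
def dz1 (ur ul : J → J) (c : R) : Mn J → Fk R J
  | [] => []
  | (false, j) :: q => (c, (false, ur j) :: q) :: consF (false, j) (dz1 ur ul c q)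
  | (true, j) :: q => (-c, (true, ul j) :: q) :: consF (true, j) (dz1 ur ul c q)

/-- the divergence of a form -/
def apZ (ur ul : J → J) (L : Fk R J) : Fk R J := L.flatMap fun r => dz1 ur ul r.1 r.2

/-- the dissipation -/
def body (D : J → List (R × J)) (ur ul : J → J) (U M : Fk R J) : Fk R J :=
  sc (-1) (apD D U) ++ apZ ur ul M

/-- all monomials have at least two factors -/
def two (L : Fk R J) : Bool := L.all fun r => decide (2 ≤ r.2.length)

end

/-- a plain or a conjugated value -/
noncomputable def cj : Bool → ℂ → ℂ
  | false, z => z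
  | true, z => starRingEnd ℂ z

/-- value of a monomial at a jet -/
noncomputable def mono {J : Type} : Mn J → (J → ℂ) → ℂ
  | [], _ => 1
  | a :: q, X => cj a.1 (X a.2) * mono q X

/-- value of a form at a jet -/
noncomputable def ev {J : Type} (L : Fk ℝ J) (X : J → ℂ) : ℝ :=
  (L.map fun c => c.1 * (mono c.2 X).re).sum

/-- an integer form as a real form -/
def rl {J : Type} (L : Fk ℤ J) : Fk ℝ J := L.map fun c => ((c.1 : ℝ), c.2)

/-- `N t d/dt`, integer coefficients, `N s = sN` -/
def DbN (N sN : ℤ) (p : Jb) : List (ℤ × Jb) :=
  match p with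
  | (d, k, false) => [(N * (d : ℤ), (d, k, false)), (N, (d, k, true))]
  | (d, k, true) => [(N * (d : ℤ) + 2 * sN, (d, k, true)), (N, (d + 2, k, false))]

end Pool.Agent.Helper54.PH
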