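import Pool.Agent.Helper54.PH.Main

set_option autoImplicit false

/-! The frame theorem for a general functional of finitely many jets: monotonicity. -/

noncomputable section

namespace Pool.Agent.Helper54.PH

open MeasureTheory Set Filter Topology Complex FourierTransform SchwartzMap
open Pool.Agent.Helper68.BA
open Pool.Agent.Helper54.JET (ee norm_ee continuous_ee inversion cont_fourier fourier_bdd fourier_MM)
open Pool.Agent.Helper54.PF (SO Cut Sf cut_ne fourier_Sf fourier_cut MM_L2 n2)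
open Pool.Agent.Helper54.BF (Sys Xt X0)
open scoped ContDiff SchwartzMap LineDeriv ENNReal

variable {ι : Type} [Fintype ι] {J : Type} (Y : Sys J) {χ : ℂ → ℂ} (h : Cut χ) (f : 𝓢(ℂ, ℂ))
  (e : ι → J)

/-! ### space derivatives -/

omit [Fintype ι] in
lemma S_ul (j : J) {t : ℝ} (ht : 0 < t) {ξ : ℂ} (hξ : ξ ≠ 0) :
    Y.S (Y.ul j) t ξ = -((t : ℂ) * (I * ξ)) * Y.S j t ξ := by
  have h1 := congrArg (starRingEnd ℂ) (Y.hul j t ξ ht hξ)
  rw [map_mul, map_mul, map_mul, Complex.conj_conj, Complex.conj_conj, Complex.conj_conj,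
    Complex.conj_ofReal, Complex.conj_I] at h1
  rw [h1]
  ring

include h in
lemma ld_one (j : J) {t : ℝ} (ht : 0 < t) (z : ℂ) :
    fderiv ℝ (fun z => Xt Y χ f t z j) z 1 =
      ((Real.pi / t : ℝ) : ℂ) * (Xt Y χ f t z (Y.ur j) - Xt Y χ f t z (Y.ul j)) := by
  have g0 := (h.mul (Y.smooth j t ht)).tg
  have g1 := (h.mul (Y.smooth (Y.ur j) t ht)).tg
  have g2 := (h.mul (Y.smooth (Y.ul j) t ht)).tg
  have hsub : ((fun ξ => χ ξ * Y.S (Y.ur j) t ξ) - fun ξ => χ ξ * Y.S (Y.ul j) t ξ).HasTemperateGrowth :=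
    g1.sub g2
  have hmul : ((fun ξ : ℂ => ((ξ.re : ℝ) : ℂ)) * fun ξ => χ ξ * Y.S j t ξ).HasTemperateGrowth :=
    tg_re.mul g0
  have key : ∂_{(1 : ℂ)} (Sf χ (Y.S j t) f) = ((Real.pi / t : ℝ) : ℂ) •
      (Sf χ (Y.S (Y.ur j) t) f - Sf χ (Y.S (Y.ul j) t) f) := by
    rw [lineDeriv_one, Sf, MM_MM tg_re g0, ← MM_smul hmul, Sf, Sf, ← MM_sub g1 g2, ← MM_smul hsub]
    congr 1
    funext ξ
    simp only [Pi.smul_apply, Pi.mul_apply, Pi.sub_apply, smul_eq_mul]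
    by_cases hχ : χ ξ = 0
    · rw [hχ]
      ring
    · have hξ := cut_ne h hχ
      rw [Y.hur j t ξ ht hξ, S_ul Y j ht hξ]
      have htc : (t : ℂ) ≠ 0 := by exact_mod_cast ht.ne'
      have e1 : (starRingEnd ℂ) ξ = 2 * ((ξ.re : ℝ) : ℂ) - ξ := by
        apply Complex.ext <;> simp <;> ring
      rw [e1]
      push_cast
      field_simp
      ring
  have h2 := congrArg (fun ψ : 𝓢(ℂ, ℂ) => ψ z) key
  simp only [lineDerivOp_apply_eq_fderiv] at h2
  exact h2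

include h in
lemma ld_I (j : J) {t : ℝ} (ht : 0 < t) (z : ℂ) :
    fderiv ℝ (fun z => Xt Y χ f t z j) z I =
      ((Real.pi / t : ℝ) : ℂ) * (I * (Xt Y χ f t z (Y.ur j) + Xt Y χ f t z (Y.ul j))) := by
  have g0 := (h.mul (Y.smooth j t ht)).tg
  have g1 := (h.mul (Y.smooth (Y.ur j) t ht)).tg
  have g2 := (h.mul (Y.smooth (Y.ul j) t ht)).tg
  have hadd : ((fun ξ => χ ξ * Y.S (Y.ur j) t ξ) + fun ξ => χ ξ * Y.S (Y.ul j) t ξ).HasTemperateGrowth :=
    g1.add g2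
  have hmul : ((fun ξ : ℂ => ((ξ.im : ℝ) : ℂ)) * fun ξ => χ ξ * Y.S j t ξ).HasTemperateGrowth :=
    tg_im.mul g0
  have key : ∂_{(I : ℂ)} (Sf χ (Y.S j t) f) = (((Real.pi / t : ℝ) : ℂ) * I) •
      (Sf χ (Y.S (Y.ur j) t) f + Sf χ (Y.S (Y.ul j) t) f) := by
    rw [lineDeriv_I, Sf, MM_MM tg_im g0, ← MM_smul hmul, Sf, Sf, ← MM_add g1 g2, ← MM_smul hadd]
    congr 1
    funext ξ
    simp only [Pi.smul_apply, Pi.mul_apply, Pi.add_apply, smul_eq_mul]
    by_cases hχ : χ ξ = 0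
    · rw [hχ]
      ring
    · have hξ := cut_ne h hχ
      rw [Y.hur j t ξ ht hξ, S_ul Y j ht hξ]
      have htc : (t : ℂ) ≠ 0 := by exact_mod_cast ht.ne'
      have e1 : (starRingEnd ℂ) ξ = ξ - 2 * I * ((ξ.im : ℝ) : ℂ) := by
        apply Complex.ext <;> simp <;> ring
      rw [e1]
      push_cast
      field_simp
      linear_combination (2 * (ξ.im : ℂ) * Y.S j t ξ) * Complex.I_sq
  have h2 := congrArg (fun ψ : 𝓢(ℂ, ℂ) => ψ z) key
  simp only [lineDerivOp_apply_eq_fderiv] at h2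
  refine h2.trans ?_
  show (((Real.pi / t : ℝ) : ℂ) * I) * (Xt Y χ f t z (Y.ur j) + Xt Y χ f t z (Y.ul j)) = _
  ring

lemma hasFDerivAt_Xt (j : J) (t : ℝ) (z : ℂ) :
    HasFDerivAt (fun z => Xt Y χ f t z j) (fderiv ℝ (fun z => Xt Y χ f t z j) z) z :=
  (Sf χ (Y.S j t) f).differentiableAt.hasFDerivAt

/-- `x`-velocity -/
def Wx (χ : ℂ → ℂ) (f : 𝓢(ℂ, ℂ)) (e : ι → J) (t : ℝ) (z : ℂ) : ι → ℂ :=
  fun i => Xt Y χ f t z (Y.ur (e i)) - Xt Y χ f t z (Y.ul (e i))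

/-- `y`-velocity -/
def Wy (χ : ℂ → ℂ) (f : 𝓢(ℂ, ℂ)) (e : ι → J) (t : ℝ) (z : ℂ) : ι → ℂ :=
  fun i => I * (Xt Y χ f t z (Y.ur (e i)) + Xt Y χ f t z (Y.ul (e i)))

variable {M : (ι → ℂ) → ℝ} {M' : (ι → ℂ) → ((ι → ℂ) →L[ℝ] ℝ)}

omit [Fintype ι] in
lemma sq_W_cont (t : ℝ) : Continuous (Wx Y χ f e t) ∧ Continuous (Wy Y χ f e t) := by
  refine ⟨continuous_pi fun i => ?_, continuous_pi fun i => ?_⟩
  · exact (Sf χ (Y.S (Y.ur (e i)) t) f).continuous.sub (Sf χ (Y.S (Y.ul (e i)) t) f).continuous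
  · exact continuous_const.mul ((Sf χ (Y.S (Y.ur (e i)) t) f).continuous.add
      (Sf χ (Y.S (Y.ul (e i)) t) f).continuous)

lemma sq_W_int (t : ℝ) (W : ℂ → ι → ℂ) (hc : Continuous W)
    (hW : ∀ z i, ‖W z i‖ ≤ ‖Xt Y χ f t z (Y.ur (e i))‖ + ‖Xt Y χ f t z (Y.ul (e i))‖) :
    Integrable fun z => ‖W z‖ ^ 2 := by
  have h1 : Integrable fun z => ∑ i, 2 * (‖Xt Y χ f t z (Y.ur (e i))‖ ^ 2 + ‖Xt Y χ f t z (Y.ul (e i))‖ ^ 2) :=
    integrable_finsetSum _ fun i _ => ((integrable_sq_Sf f _).add (integrable_sq_Sf f _)).const_mul 2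
  refine h1.mono' (hc.norm.pow 2).aestronglyMeasurable (ae_of_all _ fun z => ?_)
  rw [Real.norm_of_nonneg (by positivity)]
  refine (norm_sq_le (W z)).trans (Finset.sum_le_sum fun i _ => ?_)
  have h2 := pow_le_pow_left₀ (norm_nonneg _) (hW z i) 2
  nlinarith [sq_nonneg (‖Xt Y χ f t z (Y.ur (e i))‖ - ‖Xt Y χ f t z (Y.ul (e i))‖)]

include h in
lemma int_pair (hM : Adm M M') {t : ℝ} (ht : 0 < t) (W : ℂ → ι → ℂ) (hc : Continuous W)
    (hW : Integrable fun z => ‖W z‖ ^ 2) : Integrable fun z => M' (Zt Y χ f e t z) (W z) := by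
  obtain ⟨R, hR0, hR⟩ := sup_Zt Y h f e
  obtain ⟨C, hC0, hC⟩ := hM.b R
  have i1 : Integrable fun z => C * ((∑ i, ‖Zt Y χ f e t z i‖ ^ 2) + ‖W z‖ ^ 2) :=
    ((integrable_Nt Y f e t).add hW).const_mul C
  refine i1.mono' ?_ (ae_of_all _ fun z => ?_)
  · exact ((hM.c.comp (continuous_Zt Y f e t)).clm_apply hc).aestronglyMeasurable
  · have h1 := (M' (Zt Y χ f e t z)).le_opNorm (W z)
    have h2 := hC _ (hR t ht z)
    have h3 := mul_le_mul_of_nonneg_right h2 (norm_nonneg (W z))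
    refine (h1.trans h3).trans ?_
    rw [mul_assoc]
    refine mul_le_mul_of_nonneg_left ?_ hC0
    have h4 := norm_sq_le (Zt Y χ f e t z)
    nlinarith [sq_nonneg (‖Zt Y χ f e t z‖ - ‖W z‖), sq_nonneg (‖Zt Y χ f e t z‖), sq_nonneg ‖W z‖]

include h in
lemma div_zero_gen (hM : Adm M M') {t : ℝ} (ht : 0 < t) (v : ℂ) (W : ℂ → ι → ℂ)
    (hv : ∀ z i, fderiv ℝ (fun z => Xt Y χ f t z (e i)) z v = ((Real.pi / t : ℝ) : ℂ) * W z i)
    (hc : Continuous W) (hW : Integrable fun z => ‖W z‖ ^ 2) :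
    ∫ z, M' (Zt Y χ f e t z) (W z) = 0 := by
  have hi := int_pair Y h f e hM ht W hc hW
  have hd : ∀ z, HasLineDerivAt ℝ (fun z => M (Zt Y χ f e t z))
      ((Real.pi / t) * M' (Zt Y χ f e t z) (W z)) z v := by
    intro z
    have h1 : HasFDerivAt (fun z => Zt Y χ f e t z)
        (ContinuousLinearMap.pi fun i => fderiv ℝ (fun z => Xt Y χ f t z (e i)) z) z :=
      hasFDerivAt_pi.2 fun i => hasFDerivAt_Xt Y f (e i) t z
    have h2 := ((hM.d (Zt Y χ f e t z)).comp z h1).hasLineDerivAt v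
    have e1 : ((M' (Zt Y χ f e t z)).comp
        (ContinuousLinearMap.pi fun i => fderiv ℝ (fun z => Xt Y χ f t z (e i)) z)) v =
        (Real.pi / t) * M' (Zt Y χ f e t z) (W z) := by
      have e2 : (ContinuousLinearMap.pi fun i => fderiv ℝ (fun z => Xt Y χ f t z (e i)) z) v =
          (Real.pi / t : ℝ) • W z := by
        funext i
        rw [ContinuousLinearMap.pi_apply, hv z i, Pi.smul_apply, Complex.real_smul]
      rw [ContinuousLinearMap.comp_apply, e2, map_smul, smul_eq_mul]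
    rw [e1] at h2
    exact h2
  have hU := integrable_U Y h f e hM ht
  have h1 := integral_bilinear_hasLineDerivAt_right_eq_neg_left_of_integrable
    (μ := (volume : Measure ℂ)) (f := fun _ : ℂ => (1 : ℝ)) (f' := fun _ : ℂ => (0 : ℝ))
    (g := fun z => M (Zt Y χ f e t z)) (g' := fun z => (Real.pi / t) * M' (Zt Y χ f e t z) (W z))
    (v := v) (B := ContinuousLinearMap.mul ℝ ℝ) (by simp)
    (by simpa using hi.const_mul (Real.pi / t)) (by simpa using hU)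
    (fun z _ => (hasFDerivAt_const (1 : ℝ) z).hasLineDerivAt v) (fun z _ => hd z)
  simp only [ContinuousLinearMap.mul_apply', one_mul, zero_mul, integral_zero, neg_zero,
    integral_const_mul] at h1
  rcases mul_eq_zero.1 h1 with h2 | h2
  · exact absurd h2 (div_pos Real.pi_pos ht).ne'
  · exact h2

include h in
lemma div_x (hM : Adm M M') {t : ℝ} (ht : 0 < t) :
    Integrable (fun z => M' (Zt Y χ f e t z) (Wx Y χ f e t z)) ∧
      ∫ z, M' (Zt Y χ f e t z) (Wx Y χ f e t z) = 0 := by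
  have hc := (sq_W_cont (χ := χ) Y f e t).1
  have hW : Integrable fun z => ‖Wx Y χ f e t z‖ ^ 2 :=
    sq_W_int Y f e t _ hc fun z i => norm_sub_le _ _
  exact ⟨int_pair Y h f e hM ht _ hc hW,
    div_zero_gen Y h f e hM ht 1 _ (fun z i => ld_one Y h f (e i) ht z) hc hW⟩

include h in
lemma div_y (hM : Adm M M') {t : ℝ} (ht : 0 < t) :
    Integrable (fun z => M' (Zt Y χ f e t z) (Wy Y χ f e t z)) ∧
      ∫ z, M' (Zt Y χ f e t z) (Wy Y χ f e t z) = 0 := by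
  have hc := (sq_W_cont (χ := χ) Y f e t).2
  have hW : Integrable fun z => ‖Wy Y χ f e t z‖ ^ 2 := by
    refine sq_W_int (χ := χ) Y f e t _ hc fun z i => ?_
    rw [Wy, norm_mul, Complex.norm_I, one_mul]
    exact norm_add_le _ _
  exact ⟨int_pair Y h f e hM ht _ hc hW,
    div_zero_gen Y h f e hM ht I _ (fun z i => ld_I Y h f (e i) ht z) hc hW⟩

/-! ### time derivative -/

variable {U : (ι → ℂ) → ℝ} {U' : (ι → ℂ) → ((ι → ℂ) →L[ℝ] ℝ)}

/-- the time derivative of the functional at a point -/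
def Gt (χ : ℂ → ℂ) (f : 𝓢(ℂ, ℂ)) (e : ι → J) (U' : (ι → ℂ) → ((ι → ℂ) →L[ℝ] ℝ)) (t : ℝ) (z : ℂ) : ℝ :=
  U' (Zt Y χ f e t z) (Vt Y χ f e t z) / t

include h in
lemma hasDerivAt_UZ (hU : Adm U U') (z : ℂ) {t : ℝ} (ht : 0 < t) :
    HasDerivAt (fun t => U (Zt Y χ f e t z)) (Gt Y χ f e U' t z) t := by
  have h1 : HasDerivAt (fun t => Zt Y χ f e t z) ((1 / t : ℝ) • Vt Y χ f e t z) t := by
    rw [hasDerivAt_pi]
    intro i
    refine (hasDerivAt_Xt Y h f (e i) z ht).congr_deriv ?_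
    rw [Pi.smul_apply, Complex.real_smul, Vt]
    push_cast
    ring
  have h2 := (hU.d (Zt Y χ f e t z)).comp_hasDerivAt t h1
  refine h2.congr_deriv ?_
  rw [map_smul, smul_eq_mul, Gt]
  ring

include h in
lemma continuousOn_Gt (hU : Adm U U') :
    ContinuousOn (fun p : ℝ × ℂ => Gt Y χ f e U' p.1 p.2) (Ioi 0 ×ˢ univ) := by
  have h1 : ContinuousOn (fun p : ℝ × ℂ => U' (Zt Y χ f e p.1 p.2)) (Ioi 0 ×ˢ univ) :=
    hU.c.comp_continuousOn (continuousOn_Zt Y h f e)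
  have h2 := h1.clm_apply (continuousOn_Vt Y h f e)
  exact h2.div continuous_fst.continuousOn fun p hp => (ne_of_gt hp.1)

include h in
lemma integrable_Gt (hU : Adm U U') {a : ℝ} (ha : 0 < a) (b : ℝ) :
    Integrable (fun p : ℝ × ℂ => Gt Y χ f e U' p.1 p.2)
      ((volume.restrict (Ioc a b)).prod (volume : Measure ℂ)) := by
  obtain ⟨R, hR0, hR⟩ := sup_Zt Y h f e
  obtain ⟨C, hC0, hC⟩ := hU.b R
  obtain ⟨K1, δ, hK10, hδ, hK1⟩ := int_Nt Y h f e
  obtain ⟨K2, hK20, hK2⟩ := int_Vt Y h f e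
  have hsub : Ioc a b ×ˢ (univ : Set ℂ) ⊆ Ioi 0 ×ˢ univ := by
    intro p hp
    exact ⟨lt_trans ha hp.1.1, trivial⟩
  have hmeas : AEStronglyMeasurable (fun p : ℝ × ℂ => Gt Y χ f e U' p.1 p.2)
      ((volume.restrict (Ioc a b)).prod (volume : Measure ℂ)) := by
    have h1 : (volume.restrict (Ioc a b)).prod (volume : Measure ℂ) =
        ((volume : Measure ℝ).prod (volume : Measure ℂ)).restrict (Ioc a b ×ˢ univ) := by
      rw [← Measure.prod_restrict, Measure.restrict_univ]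
    rw [h1]
    exact ((continuousOn_Gt Y h f e hU).mono hsub).aestronglyMeasurable
      (measurableSet_Ioc.prod MeasurableSet.univ)
  have bd : ∀ t, a < t → ∀ z, ‖Gt Y χ f e U' t z‖ ≤
      (C / a) * ((∑ i, ‖Zt Y χ f e t z i‖ ^ 2) + ∑ i, ‖Vt Y χ f e t z i‖ ^ 2) := by
    intro t hat z
    have ht : 0 < t := ha.trans hat
    rw [Gt, norm_div, Real.norm_of_nonneg ht.le]
    have h1 := (U' (Zt Y χ f e t z)).le_opNorm (Vt Y χ f e t z)
    have h2 := mul_le_mul_of_nonneg_right (hC _ (hR t ht z)) (norm_nonneg (Vt Y χ f e t z))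
    have h4 := norm_sq_le (Zt Y χ f e t z)
    have h5 := norm_sq_le (Vt Y χ f e t z)
    have h6 : ‖Zt Y χ f e t z‖ * ‖Vt Y χ f e t z‖ ≤
        (∑ i, ‖Zt Y χ f e t z i‖ ^ 2) + ∑ i, ‖Vt Y χ f e t z i‖ ^ 2 := by
      nlinarith [sq_nonneg (‖Zt Y χ f e t z‖ - ‖Vt Y χ f e t z‖), sq_nonneg (‖Zt Y χ f e t z‖),
        sq_nonneg ‖Vt Y χ f e t z‖]
    have h7 : ‖U' (Zt Y χ f e t z) (Vt Y χ f e t z)‖ ≤
        C * ((∑ i, ‖Zt Y χ f e t z i‖ ^ 2) + ∑ i, ‖Vt Y χ f e t z i‖ ^ 2) := by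
      refine (h1.trans h2).trans ?_
      rw [mul_assoc]
      exact mul_le_mul_of_nonneg_left h6 hC0
    have h8 : 0 ≤ C * ((∑ i, ‖Zt Y χ f e t z i‖ ^ 2) + ∑ i, ‖Vt Y χ f e t z i‖ ^ 2) :=
      (norm_nonneg _).trans h7
    calc ‖U' (Zt Y χ f e t z) (Vt Y χ f e t z)‖ / t
        ≤ (C * ((∑ i, ‖Zt Y χ f e t z i‖ ^ 2) + ∑ i, ‖Vt Y χ f e t z i‖ ^ 2)) / a :=
          div_le_div₀ h8 h7 ha hat.le
      _ = (C / a) * ((∑ i, ‖Zt Y χ f e t z i‖ ^ 2) + ∑ i, ‖Vt Y χ f e t z i‖ ^ 2) := by ring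
  have ib : ∀ t, a < t → Integrable fun z =>
      (C / a) * ((∑ i, ‖Zt Y χ f e t z i‖ ^ 2) + ∑ i, ‖Vt Y χ f e t z i‖ ^ 2) := fun t hat =>
    ((integrable_Nt Y f e t).add (hK2 t (ha.trans hat)).1).const_mul _
  have slice : ∀ t, a < t → Integrable fun z => Gt Y χ f e U' t z := by
    intro t hat
    refine (ib t hat).mono' ?_ (ae_of_all _ (bd t hat))
    have hc : Continuous fun z => Gt Y χ f e U' t z := by
      have h1 := (continuousOn_Gt Y h f e hU).comp (f := fun z : ℂ => (t, z)) (s := univ)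
        (by fun_prop) (fun z _ => ⟨ha.trans hat, trivial⟩)
      exact continuousOn_univ.1 h1
    exact hc.aestronglyMeasurable
  rw [integrable_prod_iff hmeas]
  refine ⟨?_, ?_⟩
  · filter_upwards [ae_restrict_mem measurableSet_Ioc] with t ht
    exact slice t ht.1
  · have hm : AEStronglyMeasurable (fun t => ∫ z, ‖Gt Y χ f e U' t z‖) (volume.restrict (Ioc a b)) :=
      hmeas.norm.integral_prod_right'
    have : IsFiniteMeasure (volume.restrict (Ioc a b)) := ⟨by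
      rw [Measure.restrict_apply_univ]
      exact measure_Ioc_lt_top⟩
    refine (integrable_const ((C / a) * (K1 + K2))).mono' hm ?_
    filter_upwards [ae_restrict_mem measurableSet_Ioc] with t ht
    have ht0 : 0 < t := ha.trans ht.1
    rw [Real.norm_of_nonneg (integral_nonneg fun z => norm_nonneg _)]
    refine (integral_mono (slice t ht.1).norm (ib t ht.1) (bd t ht.1)).trans ?_
    rw [integral_const_mul, integral_add (integrable_Nt Y f e t) (hK2 t ht0).1]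
    refine mul_le_mul_of_nonneg_left (add_le_add ?_ (hK2 t ht0).2) (by positivity)
    refine (hK1 t ht0).trans (mul_le_of_le_one_right hK10 (Real.exp_le_one_iff.2 ?_))
    have := mul_pos hδ ht0
    linarith

variable {M1 M2 : (ι → ℂ) → ℝ} {M1' M2' : (ι → ℂ) → ((ι → ℂ) →L[ℝ] ℝ)}

include h in
lemma int_Gt_nonpos (hU : Adm U U') (hM1 : Adm M1 M1') (hM2 : Adm M2 M2')
    (hR : ∀ X : J → ℂ, U' (fun i => X (e i)) (fun i => lc (Y.D (e i)) X) ≤
      M1' (fun i => X (e i)) (fun i => X (Y.ur (e i)) - X (Y.ul (e i))) +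
      M2' (fun i => X (e i)) (fun i => I * (X (Y.ur (e i)) + X (Y.ul (e i)))))
    {t : ℝ} (ht : 0 < t) : ∫ z, Gt Y χ f e U' t z ≤ 0 := by
  have d1 := div_x Y h f e hM1 ht
  have d2 := div_y Y h f e hM2 ht
  have h1 : ∀ z, Gt Y χ f e U' t z ≤ (1 / t) * (M1' (Zt Y χ f e t z) (Wx Y χ f e t z) +
      M2' (Zt Y χ f e t z) (Wy Y χ f e t z)) := by
    intro z
    have h2 := hR (Xt Y χ f t z)
    have h3 := mul_le_mul_of_nonneg_left h2 (by positivity : 0 ≤ 1 / t)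
    have h4 : Gt Y χ f e U' t z = (1 / t) * U' (Zt Y χ f e t z) (Vt Y χ f e t z) := by
      rw [Gt]
      ring
    exact (le_of_eq h4).trans h3
  have i3 : Integrable fun z => (1 / t) * (M1' (Zt Y χ f e t z) (Wx Y χ f e t z) +
      M2' (Zt Y χ f e t z) (Wy Y χ f e t z)) := (d1.1.add d2.1).const_mul _
  have e4 : ∫ z, (1 / t) * (M1' (Zt Y χ f e t z) (Wx Y χ f e t z) +
      M2' (Zt Y χ f e t z) (Wy Y χ f e t z)) = 0 := by
    rw [integral_const_mul, integral_add d1.1 d2.1, d1.2, d2.2]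
    simp
  by_cases hG : Integrable fun z => Gt Y χ f e U' t z
  · rw [← e4]
    exact integral_mono hG i3 h1
  · rw [integral_undef hG]

include h in
lemma Ph_anti (hU : Adm U U') (hM1 : Adm M1 M1') (hM2 : Adm M2 M2')
    (hR : ∀ X : J → ℂ, U' (fun i => X (e i)) (fun i => lc (Y.D (e i)) X) ≤
      M1' (fun i => X (e i)) (fun i => X (Y.ur (e i)) - X (Y.ul (e i))) +
      M2' (fun i => X (e i)) (fun i => I * (X (Y.ur (e i)) + X (Y.ul (e i)))))
    {a b : ℝ} (ha : 0 < a) (hab : a ≤ b) : Ph Y χ f e U b ≤ Ph Y χ f e U a := by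
  have hb : 0 < b := lt_of_lt_of_le ha hab
  have iG := integrable_Gt Y h f e hU ha b
  have key : ∀ z, U (Zt Y χ f e b z) - U (Zt Y χ f e a z) = ∫ t in Ioc a b, Gt Y χ f e U' t z := by
    intro z
    rw [← intervalIntegral.integral_of_le hab]
    symm
    apply intervalIntegral.integral_eq_sub_of_hasDerivAt
    · intro t ht
      rw [uIcc_of_le hab] at ht
      exact hasDerivAt_UZ Y h f e hU z (lt_of_lt_of_le ha ht.1)
    · apply ContinuousOn.intervalIntegrable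
      rw [uIcc_of_le hab]
      have h1 := (continuousOn_Gt Y h f e hU).comp (f := fun t : ℝ => (t, z)) (s := Icc a b)
        (by fun_prop) (fun t ht => ⟨lt_of_lt_of_le ha ht.1, trivial⟩)
      exact h1
  have h2 : Ph Y χ f e U b - Ph Y χ f e U a = ∫ z, ∫ t in Ioc a b, Gt Y χ f e U' t z := by
    rw [Ph, Ph, ← integral_sub (integrable_U Y h f e hU hb) (integrable_U Y h f e hU ha)]
    congr 1
    funext z
    exact key z
  have h3 := integral_integral_swap (μ := volume.restrict (Ioc a b)) (ν := (volume : Measure ℂ))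
    (f := fun t z => Gt Y χ f e U' t z) iG
  rw [← h3] at h2
  have h4 : ∫ t in Ioc a b, ∫ z, Gt Y χ f e U' t z ≤ 0 := by
    apply integral_nonpos_of_ae
    filter_upwards [ae_restrict_mem measurableSet_Ioc] with t ht
    exact int_Gt_nonpos Y h f e hU hM1 hM2 hR (ha.trans ht.1)
  linarith

include h in
/-- CORE FRAME: the functional is nonnegative at height `0` -/
theorem core (hU : Adm U U') (hM1 : Adm M1 M1') (hM2 : Adm M2 M2')
    (hR : ∀ X : J → ℂ, U' (fun i => X (e i)) (fun i => lc (Y.D (e i)) X) ≤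
      M1' (fun i => X (e i)) (fun i => X (Y.ur (e i)) - X (Y.ul (e i))) +
      M2' (fun i => X (e i)) (fun i => I * (X (Y.ur (e i)) + X (Y.ul (e i))))) :
    0 ≤ ∫ z, U (Z0 Y χ f e z) := by
  refine Ph0_nonneg Y h f e hU fun t ht => ?_
  refine le_of_tendsto (Ph_tendsto_top Y h f e hU) ?_
  filter_upwards [eventually_ge_atTop t] with s hs
  exact Ph_anti Y h f e hU hM1 hM2 hR ht hs

end Pool.Agent.Helper54.PH
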