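import Pool.Agent.Helper54.PH.Core

set_option autoImplicit false

/-! The frame theorem for a general functional of finitely many jets. -/

noncomputable section

namespace Pool.Agent.Helper54.PH

open MeasureTheory Set Filter Topology Complex FourierTransform SchwartzMap
open Pool.Agent.Helper68.BA
open Pool.Agent.Helper54.JET (ee norm_ee continuous_ee inversion cont_fourier fourier_bdd fourier_MM)
open Pool.Agent.Helper54.PF (SO Cut Sf cut_ne fourier_Sf fourier_cut MM_L2 n2)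
open Pool.Agent.Helper54.BF (Sys Xt X0)
open scoped ContDiff SchwartzMap LineDeriv ENNReal

variable {ι : Type} [Fintype ι]

/-- admissible functionals of the jets: `C^1`, quadratic at the origin -/
structure Adm (U : (ι → ℂ) → ℝ) (U' : (ι → ℂ) → ((ι → ℂ) →L[ℝ] ℝ)) : Prop where
  z : U 0 = 0
  d : ∀ Z, HasFDerivAt U (U' Z) Z
  c : Continuous U'
  b : ∀ R : ℝ, ∃ C : ℝ, 0 ≤ C ∧ ∀ Z, ‖Z‖ ≤ R → ‖U' Z‖ ≤ C * ‖Z‖

namespace Adm

variable {U : (ι → ℂ) → ℝ} {U' : (ι → ℂ) → ((ι → ℂ) →L[ℝ] ℝ)} (hU : Adm U U')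

include hU

lemma cont : Continuous U := continuous_iff_continuousAt.2 fun Z => (hU.d Z).continuousAt

lemma sub (R : ℝ) : ∃ C : ℝ, 0 ≤ C ∧ ∀ Z W, ‖Z‖ ≤ R → ‖W‖ ≤ R →
    |U Z - U W| ≤ C * (‖Z‖ + ‖W‖) * ‖Z - W‖ := by
  obtain ⟨C, hC0, hC⟩ := hU.b R
  refine ⟨C, hC0, fun Z W hZ hW => ?_⟩
  have key := (convex_segment (𝕜 := ℝ) W Z).norm_image_sub_le_of_norm_hasFDerivWithin_le
    (f := U) (f' := U') (C := C * (‖Z‖ + ‖W‖)) (x := W) (y := Z)
    (fun V _ => (hU.d V).hasFDerivWithinAt) ?_ (left_mem_segment ℝ W Z) (right_mem_segment ℝ W Z)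
  · rw [Real.norm_eq_abs] at key
    exact key
  · rintro V ⟨a, b, ha, hb, hab, rfl⟩
    have h1 : ‖a • W + b • Z‖ ≤ a * ‖W‖ + b * ‖Z‖ := by
      refine (norm_add_le _ _).trans (le_of_eq ?_)
      rw [norm_smul, norm_smul, Real.norm_of_nonneg ha, Real.norm_of_nonneg hb]
    have ha1 : a ≤ 1 := by linarith
    have hb1 : b ≤ 1 := by linarith
    have h2 : a * ‖W‖ + b * ‖Z‖ ≤ ‖Z‖ + ‖W‖ := by
      have h3 := mul_le_of_le_one_left (norm_nonneg W) ha1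
      have h4 := mul_le_of_le_one_left (norm_nonneg Z) hb1
      linarith
    have h5 : ‖a • W + b • Z‖ ≤ R := by
      refine h1.trans ?_
      have h3 := mul_le_mul_of_nonneg_left hW ha
      have h4 := mul_le_mul_of_nonneg_left hZ hb
      have : a * R + b * R = R := by rw [← add_mul, hab, one_mul]
      linarith
    exact (hC _ h5).trans (mul_le_mul_of_nonneg_left (h1.trans h2) hC0)

lemma bd2 (R : ℝ) : ∃ C : ℝ, 0 ≤ C ∧ ∀ Z, ‖Z‖ ≤ R → |U Z| ≤ C * ‖Z‖ ^ 2 := by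
  obtain ⟨C, hC0, hC⟩ := hU.sub (max R 0)
  refine ⟨C, hC0, fun Z hZ => ?_⟩
  have h1 := hC Z 0 (hZ.trans (le_max_left _ _)) (by rw [norm_zero]; exact le_max_right _ _)
  rw [hU.z, sub_zero, norm_zero, add_zero, sub_zero] at h1
  refine h1.trans (le_of_eq ?_)
  ring

end Adm

/-- the norm of a finite family of jets is controlled by the sum of the squares -/
lemma norm_sq_le (Z : ι → ℂ) : ‖Z‖ ^ 2 ≤ ∑ i, ‖Z i‖ ^ 2 := by
  have h1 : ‖Z‖ ≤ Real.sqrt (∑ i, ‖Z i‖ ^ 2) := by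
    rw [pi_norm_le_iff_of_nonneg (Real.sqrt_nonneg _)]
    intro i
    apply Real.le_sqrt_of_sq_le
    exact Finset.single_le_sum (f := fun i => ‖Z i‖ ^ 2) (fun i _ => by positivity) (Finset.mem_univ i)
  have h2 := pow_le_pow_left₀ (norm_nonneg _) h1 2
  rwa [Real.sq_sqrt (Finset.sum_nonneg fun i _ => by positivity)] at h2

variable {J : Type} (Y : Sys J) {χ : ℂ → ℂ} (h : Cut χ) (f : 𝓢(ℂ, ℂ)) (e : ι → J)

/-- the finite jet at height `t` -/
def Zt (χ : ℂ → ℂ) (f : 𝓢(ℂ, ℂ)) (e : ι → J) (t : ℝ) (z : ℂ) : ι → ℂ := fun i => Xt Y χ f t z (e i)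

/-- the finite jet at height `0` -/
def Z0 (χ : ℂ → ℂ) (f : 𝓢(ℂ, ℂ)) (e : ι → J) (z : ℂ) : ι → ℂ := fun i => X0 Y χ f z (e i)

/-- the velocity of the jet (times `t`) -/
def Vt (χ : ℂ → ℂ) (f : 𝓢(ℂ, ℂ)) (e : ι → J) (t : ℝ) (z : ℂ) : ι → ℂ :=
  fun i => lc (Y.D (e i)) (Xt Y χ f t z)

/-- a sum of squared norms dominating -/
def Nt (χ : ℂ → ℂ) (f : 𝓢(ℂ, ℂ)) (e : ι → J) (t : ℝ) (z : ℂ) : ℝ := ∑ i, ‖Xt Y χ f t z (e i)‖ ^ 2

include h

omit [Fintype ι] in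
lemma sup_Zt_one (i : ι) : ∃ R : ℝ, 0 ≤ R ∧ ∀ t, 0 < t → ∀ z, ‖Zt Y χ f e t z i‖ ≤ R :=
  sup_Xt Y h f (e i)

lemma sup_Zt : ∃ R : ℝ, 0 ≤ R ∧ ∀ t, 0 < t → ∀ z, ‖Zt Y χ f e t z‖ ≤ R := by
  choose R hR0 hR using sup_Zt_one Y h f e
  refine ⟨∑ i, R i, Finset.sum_nonneg fun i _ => hR0 i, fun t ht z => ?_⟩
  rw [pi_norm_le_iff_of_nonneg (Finset.sum_nonneg fun i _ => hR0 i)]
  intro i
  exact (hR i t ht z).trans (Finset.single_le_sum (fun i _ => hR0 i) (Finset.mem_univ i))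

omit [Fintype ι] in
lemma continuousOn_Zt : ContinuousOn (fun p : ℝ × ℂ => Zt Y χ f e p.1 p.2) (Ioi 0 ×ˢ univ) :=
  continuousOn_pi.2 fun i => continuousOn_Xt Y h f (e i)

omit [Fintype ι] in
lemma continuousOn_Vt : ContinuousOn (fun p : ℝ × ℂ => Vt Y χ f e p.1 p.2) (Ioi 0 ×ˢ univ) :=
  continuousOn_pi.2 fun i => lc_continuousOn Y h f (Y.D (e i))

omit h [Fintype ι] in
lemma continuous_Zt (t : ℝ) : Continuous fun z => Zt Y χ f e t z :=
  continuous_pi fun i => (Sf χ (Y.S (e i) t) f).continuous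

omit h [Fintype ι] in
lemma continuous_Z0 : Continuous fun z => Z0 Y χ f e z :=
  continuous_pi fun i => (Sf χ (Y.S0 (e i)) f).continuous

omit h in
lemma integrable_Nt (t : ℝ) : Integrable fun z => ∑ i, ‖Zt Y χ f e t z i‖ ^ 2 :=
  integrable_finsetSum _ fun i _ => integrable_sq_Sf f _

lemma int_Nt : ∃ C δ : ℝ, 0 ≤ C ∧ 0 < δ ∧ ∀ t, 0 < t →
    ∫ z, ∑ i, ‖Zt Y χ f e t z i‖ ^ 2 ≤ C * Real.exp (-(δ * t)) := by
  classical
  have key : ∀ s : Finset ι, ∃ C δ : ℝ, 0 ≤ C ∧ 0 < δ ∧ ∀ t, 0 < t →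
      ∫ z, ∑ i ∈ s, ‖Zt Y χ f e t z i‖ ^ 2 ≤ C * Real.exp (-(δ * t)) := by
    intro s
    induction s using Finset.induction_on with
    | empty => exact ⟨0, 1, le_rfl, one_pos, fun t _ => by simp⟩
    | insert a s ha ih =>
      obtain ⟨C, δ, hC0, hδ, hC⟩ := ih
      obtain ⟨C', δ', hC0', hδ', hC'⟩ := sq_Xt Y h f (e a)
      refine ⟨C' + C, min δ' δ, by positivity, lt_min hδ' hδ, fun t ht => ?_⟩
      have e1 : ∫ z, ∑ i ∈ insert a s, ‖Zt Y χ f e t z i‖ ^ 2 = (∫ z, ‖Xt Y χ f t z (e a)‖ ^ 2) +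
          ∫ z, ∑ i ∈ s, ‖Zt Y χ f e t z i‖ ^ 2 := by
        have j1 : Integrable fun z => ‖Xt Y χ f t z (e a)‖ ^ 2 := integrable_sq_Sf f _
        have j2 : Integrable fun z => ∑ i ∈ s, ‖Zt Y χ f e t z i‖ ^ 2 :=
          integrable_finsetSum _ fun i _ => integrable_sq_Sf f _
        rw [← integral_add j1 j2]
        congr 1
        funext z
        rw [Finset.sum_insert ha]
        rfl
      rw [e1, add_mul]
      refine add_le_add ((hC' t ht).trans ?_) ((hC t ht).trans ?_)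
      · refine mul_le_mul_of_nonneg_left (Real.exp_le_exp.2 ?_) hC0'
        have := mul_le_mul_of_nonneg_right (min_le_left δ' δ) ht.le
        linarith
      · refine mul_le_mul_of_nonneg_left (Real.exp_le_exp.2 ?_) hC0
        have := mul_le_mul_of_nonneg_right (min_le_right δ' δ) ht.le
        linarith
  exact key Finset.univ

lemma int_Vt : ∃ C : ℝ, 0 ≤ C ∧ ∀ t, 0 < t →
    Integrable (fun z => ∑ i, ‖Vt Y χ f e t z i‖ ^ 2) ∧ ∫ z, ∑ i, ‖Vt Y χ f e t z i‖ ^ 2 ≤ C := by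
  choose C hC0 hC using fun i => sq_lc Y h f (Y.D (e i))
  refine ⟨∑ i, C i, Finset.sum_nonneg fun i _ => hC0 i, fun t ht => ⟨?_, ?_⟩⟩
  · exact integrable_finsetSum _ fun i _ => (hC i t ht).1
  · have j1 : ∀ i ∈ (Finset.univ : Finset ι), Integrable fun z => ‖Vt Y χ f e t z i‖ ^ 2 :=
      fun i _ => (hC i t ht).1
    rw [integral_finsetSum _ j1]
    exact Finset.sum_le_sum fun i _ => (hC i t ht).2

variable {U : (ι → ℂ) → ℝ} {U' : (ι → ℂ) → ((ι → ℂ) →L[ℝ] ℝ)}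

/-- the functional is integrable -/
lemma integrable_U (hU : Adm U U') {t : ℝ} (ht : 0 < t) : Integrable fun z => U (Zt Y χ f e t z) := by
  obtain ⟨R, hR0, hR⟩ := sup_Zt Y h f e
  obtain ⟨C, hC0, hC⟩ := hU.bd2 R
  refine ((integrable_Nt (χ := χ) Y f e t).const_mul C).mono'
    (hU.cont.comp (continuous_Zt Y f e t)).aestronglyMeasurable (ae_of_all _ fun z => ?_)
  rw [Real.norm_eq_abs]
  refine (hC _ (hR t ht z)).trans (mul_le_mul_of_nonneg_left (norm_sq_le _) hC0)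

/-- the functional at height `t` -/
def Ph (Y : Sys J) (χ : ℂ → ℂ) (f : 𝓢(ℂ, ℂ)) (e : ι → J) (U : (ι → ℂ) → ℝ) (t : ℝ) : ℝ :=
  ∫ z, U (Zt Y χ f e t z)

lemma Ph_tendsto_top (hU : Adm U U') : Tendsto (Ph Y χ f e U) atTop (𝓝 0) := by
  obtain ⟨R, hR0, hR⟩ := sup_Zt Y h f e
  obtain ⟨C, hC0, hC⟩ := hU.bd2 R
  obtain ⟨C', δ, hC0', hδ, hC'⟩ := int_Nt Y h f e
  rw [tendsto_zero_iff_norm_tendsto_zero]
  have h1 : Tendsto (fun t : ℝ => (C * C') * Real.exp (-(δ * t))) atTop (𝓝 0) := by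
    have h2 : Tendsto (fun t : ℝ => Real.exp (-(δ * t))) atTop (𝓝 0) :=
      Real.tendsto_exp_neg_atTop_nhds_zero.comp (tendsto_id.const_mul_atTop hδ)
    have h3 := h2.const_mul (C * C')
    simpa using h3
  refine squeeze_zero' (Eventually.of_forall fun y => norm_nonneg _) ?_ h1
  filter_upwards [eventually_gt_atTop 0] with t ht
  refine (norm_integral_le_of_norm_le ((integrable_Nt (χ := χ) Y f e t).const_mul C)
    (ae_of_all _ fun z => ?_)).trans ?_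
  · rw [Real.norm_eq_abs]
    exact (hC _ (hR t ht z)).trans (mul_le_mul_of_nonneg_left (norm_sq_le _) hC0)
  · rw [integral_const_mul, mul_assoc]
    exact mul_le_mul_of_nonneg_left (hC' t ht) hC0

omit h [Fintype ι] in
lemma Zt_sub (i : ι) (t : ℝ) (z : ℂ) (h : Cut χ) (ht : 0 < t) : Zt Y χ f e t z i - Z0 Y χ f e z i =
    Sf χ (fun ξ => Y.S (e i) t ξ - Y.S0 (e i) ξ) f z := by
  have h1 := (h.mul (Y.smooth (e i) t ht)).tg
  have h2 := (h.mul (Y.smooth0 (e i))).tg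
  have h3 := MM_sub h1 h2 f
  have e3 : (fun ξ => χ ξ * (Y.S (e i) t ξ - Y.S0 (e i) ξ)) =
      (fun ξ => χ ξ * Y.S (e i) t ξ) - fun ξ => χ ξ * Y.S0 (e i) ξ := by
    funext ξ
    simp only [Pi.sub_apply]
    ring
  rw [Sf, e3, h3]
  rfl

omit [Fintype ι] in
/-- the jets tend to the jets at height `0` in `L^2` -/
lemma sq_diff (i : ι) : Tendsto (fun t : ℝ => ∫ z, ‖Zt Y χ f e t z i - Z0 Y χ f e z i‖ ^ 2) (𝓝[>] 0)
    (𝓝 0) := by
  obtain ⟨C, hC0, hC⟩ := bdS' Y h f (e i)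
  have hlim : ∀ ξ, Tendsto (fun t : ℝ => (Y.S (e i) t ξ - Y.S0 (e i) ξ) * kf χ f ξ) (𝓝[>] 0) (𝓝 0) := by
    intro ξ
    by_cases hk : kf χ f ξ = 0
    · simp only [hk, mul_zero]
      exact tendsto_const_nhds
    · have hχ : χ ξ ≠ 0 := fun h0 => hk (by rw [kf, h0, zero_mul])
      have h1 := ((Y.lim (e i) ξ (cut_ne h hχ)).sub_const (Y.S0 (e i) ξ)).mul_const (kf χ f ξ)
      simpa using h1
  have hbd0 : ∀ ξ, ‖Y.S0 (e i) ξ * kf χ f ξ‖ ≤ C * ‖𝓕 (f : ℂ → ℂ) ξ‖ := by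
    intro ξ
    by_cases hk : kf χ f ξ = 0
    · rw [hk, mul_zero, norm_zero]
      positivity
    · have hχ : χ ξ ≠ 0 := fun h0 => hk (by rw [kf, h0, zero_mul])
      have h1 := ((Y.lim (e i) ξ (cut_ne h hχ)).mul_const (kf χ f ξ)).norm
      refine le_of_tendsto h1 ?_
      filter_upwards [self_mem_nhdsWithin] with t ht
      exact hC t ht ξ
  have hbd : ∀ t, 0 < t → ∀ ξ, ‖(Y.S (e i) t ξ - Y.S0 (e i) ξ) * kf χ f ξ‖ ^ 2 ≤
      (2 * C) ^ 2 * ‖𝓕 (f : ℂ → ℂ) ξ‖ ^ 2 := by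
    intro t ht ξ
    rw [← mul_pow]
    refine pow_le_pow_left₀ (norm_nonneg _) ?_ 2
    rw [sub_mul]
    refine (norm_sub_le _ _).trans ?_
    have := hC t ht ξ
    have := hbd0 ξ
    linarith
  have hsm : ∀ t, 0 < t → SO (fun ξ => Y.S (e i) t ξ - Y.S0 (e i) ξ) := fun t ht ξ hξ =>
    (Y.smooth (e i) t ht ξ hξ).sub (Y.smooth0 (e i) ξ hξ)
  have key : Tendsto (fun t : ℝ => ∫ ξ, ‖(Y.S (e i) t ξ - Y.S0 (e i) ξ) * kf χ f ξ‖ ^ 2) (𝓝[>] 0)
      (𝓝 (∫ _ξ : ℂ, (0 : ℝ))) := by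
    refine tendsto_integral_filter_of_dominated_convergence
      (fun ξ => (2 * C) ^ 2 * ‖𝓕 (f : ℂ → ℂ) ξ‖ ^ 2) ?_ ?_ ((fourier_sq_integrable f).const_mul _)
      (ae_of_all _ fun ξ => ?_)
    · filter_upwards [self_mem_nhdsWithin] with t ht
      exact ((integrable_sym1 f h (hsm t ht)).aestronglyMeasurable.norm.pow 2)
    · filter_upwards [self_mem_nhdsWithin] with t ht
      refine ae_of_all _ fun ξ => ?_
      rw [Real.norm_of_nonneg (by positivity)]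
      exact hbd t ht ξ
    · have := ((hlim ξ).norm).pow 2
      simpa using this
  rw [integral_zero] at key
  refine key.congr' ?_
  filter_upwards [self_mem_nhdsWithin] with t ht
  rw [← sq_Sf h f (hsm t ht)]
  congr 1
  funext z
  rw [Zt_sub Y f e i t z h ht]

omit h [Fintype ι] in
lemma sup_Z0_one (i : ι) : ∃ R : ℝ, 0 ≤ R ∧ ∀ z, ‖Z0 Y χ f e z i‖ ≤ R := by
  have hb : ∃ C : ℝ, ∀ z, ‖Sf χ (Y.S0 (e i)) f z‖ ≤ C := by
    obtain ⟨C, hC⟩ := (Sf χ (Y.S0 (e i)) f).decay 0 0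
    exact ⟨C, fun z => by simpa using hC.2 z⟩
  obtain ⟨C, hC⟩ := hb
  exact ⟨C, (norm_nonneg _).trans (hC 0), hC⟩

lemma sup_Z0 : ∃ R : ℝ, 0 ≤ R ∧ ∀ z, ‖Z0 Y χ f e z‖ ≤ R := by
  choose R hR0 hR using sup_Z0_one (χ := χ) Y f e
  refine ⟨∑ i, R i, Finset.sum_nonneg fun i _ => hR0 i, fun z => ?_⟩
  rw [pi_norm_le_iff_of_nonneg (Finset.sum_nonneg fun i _ => hR0 i)]
  intro i
  exact (hR i z).trans (Finset.single_le_sum (fun i _ => hR0 i) (Finset.mem_univ i))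

omit h in
lemma integrable_N0 : Integrable fun z => ∑ i, ‖Z0 Y χ f e z i‖ ^ 2 :=
  integrable_finsetSum _ fun i _ => integrable_sq_Sf f _

lemma integrable_U0 (hU : Adm U U') : Integrable fun z => U (Z0 Y χ f e z) := by
  obtain ⟨R, hR0, hR⟩ := sup_Z0 Y h f e
  obtain ⟨C, hC0, hC⟩ := hU.bd2 R
  refine ((integrable_N0 (χ := χ) Y f e).const_mul C).mono'
    (hU.cont.comp (continuous_Z0 Y f e)).aestronglyMeasurable (ae_of_all _ fun z => ?_)
  rw [Real.norm_eq_abs]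
  exact (hC _ (hR z)).trans (mul_le_mul_of_nonneg_left (norm_sq_le _) hC0)

/-- lower limit at height `0` -/
lemma Ph0_nonneg (hU : Adm U U') (hpos : ∀ t, 0 < t → 0 ≤ Ph Y χ f e U t) :
    0 ≤ ∫ z, U (Z0 Y χ f e z) := by
  obtain ⟨R1, hR10, hR1⟩ := sup_Zt Y h f e
  obtain ⟨R2, hR20, hR2⟩ := sup_Z0 Y h f e
  obtain ⟨C, hC0, hC⟩ := hU.sub (max R1 R2)
  obtain ⟨K, δ, hK0, hδ, hK⟩ := int_Nt Y h f e
  set K0 : ℝ := ∫ z, ∑ i, ‖Z0 Y χ f e z i‖ ^ 2 with hK0'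
  have hK00 : 0 ≤ K0 := integral_nonneg fun z => Finset.sum_nonneg fun i _ => by positivity
  set E : ℝ → ℝ := fun t => ∫ z, ∑ i, ‖Zt Y χ f e t z i - Z0 Y χ f e z i‖ ^ 2 with hE
  have iE : ∀ i t, 0 < t → Integrable fun z => ‖Zt Y χ f e t z i - Z0 Y χ f e z i‖ ^ 2 := by
    intro i t ht
    refine (integrable_sq_Sf (χ := χ) f (fun ξ => Y.S (e i) t ξ - Y.S0 (e i) ξ)).congr
      (ae_of_all _ fun z => ?_)
    simp only []
    rw [Zt_sub Y f e i t z h ht]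
  have hE0 : Tendsto E (𝓝[>] 0) (𝓝 0) := by
    have h1 : Tendsto (fun t => ∑ i, ∫ z, ‖Zt Y χ f e t z i - Z0 Y χ f e z i‖ ^ 2) (𝓝[>] 0)
        (𝓝 (∑ _i : ι, (0 : ℝ))) := tendsto_finsetSum _ fun i _ => sq_diff Y h f e i
    rw [Finset.sum_const_zero] at h1
    refine h1.congr' ?_
    filter_upwards [self_mem_nhdsWithin] with t ht
    rw [hE]
    simp only []
    rw [integral_finsetSum _ fun i _ => iE i t ht]
  -- the main estimate
  have main : ∀ η : ℝ, 0 < η → ∀ t, 0 < t →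
      -(C * (2 * η * (K + K0)) + C / η * E t) ≤ ∫ z, U (Z0 Y χ f e z) := by
    intro η hη t ht
    have hle : ∀ z, U (Zt Y χ f e t z) - U (Z0 Y χ f e z) ≤
        C * (2 * η * ((∑ i, ‖Zt Y χ f e t z i‖ ^ 2) + ∑ i, ‖Z0 Y χ f e z i‖ ^ 2)) +
          C / η * ∑ i, ‖Zt Y χ f e t z i - Z0 Y χ f e z i‖ ^ 2 := by
      intro z
      have h1 := hC (Zt Y χ f e t z) (Z0 Y χ f e z) ((hR1 t ht z).trans (le_max_left _ _))
        ((hR2 z).trans (le_max_right _ _))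
      have h2 := (le_abs_self _).trans h1
      refine h2.trans ?_
      set a := ‖Zt Y χ f e t z‖ with ha
      set b := ‖Z0 Y χ f e z‖ with hb
      set c := ‖Zt Y χ f e t z - Z0 Y χ f e z‖ with hc
      have hA : a ^ 2 ≤ ∑ i, ‖Zt Y χ f e t z i‖ ^ 2 := norm_sq_le _
      have hB : b ^ 2 ≤ ∑ i, ‖Z0 Y χ f e z i‖ ^ 2 := norm_sq_le _
      have hCc : c ^ 2 ≤ ∑ i, ‖Zt Y χ f e t z i - Z0 Y χ f e z i‖ ^ 2 := by
        have := norm_sq_le (Zt Y χ f e t z - Z0 Y χ f e z)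
        simpa using this
      have h3 : (a + b) * c ≤ η * (a + b) ^ 2 + 1 / η * c ^ 2 := by
        have h4 : 0 ≤ (η * (a + b) - c) ^ 2 / η := by positivity
        have h5 : (η * (a + b) - c) ^ 2 / η = η * (a + b) ^ 2 - 2 * ((a + b) * c) + 1 / η * c ^ 2 := by
          field_simp
          ring
        have h6 : 0 ≤ (a + b) * c := by positivity
        linarith
      have h7 : (a + b) ^ 2 ≤ 2 * (a ^ 2 + b ^ 2) := by nlinarith [sq_nonneg (a - b)]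
      have h8 : η * (a + b) ^ 2 ≤ 2 * η * ((∑ i, ‖Zt Y χ f e t z i‖ ^ 2) + ∑ i, ‖Z0 Y χ f e z i‖ ^ 2) := by
        have := mul_le_mul_of_nonneg_left h7 hη.le
        have h9 := mul_le_mul_of_nonneg_left (add_le_add hA hB) (by positivity : 0 ≤ 2 * η)
        linarith
      have h10 : 1 / η * c ^ 2 ≤ 1 / η * ∑ i, ‖Zt Y χ f e t z i - Z0 Y χ f e z i‖ ^ 2 :=
        mul_le_mul_of_nonneg_left hCc (by positivity)
      have h11 := mul_le_mul_of_nonneg_left (h3.trans (add_le_add h8 h10)) hC0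
      have e1 : C * (a + b) * c = C * ((a + b) * c) := by ring
      rw [e1]
      refine h11.trans (le_of_eq ?_)
      ring
    have i1 := integrable_U Y h f e hU ht
    have i2 := integrable_U0 Y h f e hU
    have i3 := integrable_Nt (χ := χ) Y f e t
    have i4 := integrable_N0 (χ := χ) Y f e
    have i5 : Integrable fun z => ∑ i, ‖Zt Y χ f e t z i - Z0 Y χ f e z i‖ ^ 2 :=
      integrable_finsetSum _ fun i _ => iE i t ht
    have i34 : Integrable fun z => (∑ i, ‖Zt Y χ f e t z i‖ ^ 2) + ∑ i, ‖Z0 Y χ f e z i‖ ^ 2 :=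
      i3.add i4
    have iL : Integrable fun z => U (Zt Y χ f e t z) - U (Z0 Y χ f e z) := i1.sub i2
    have iR : Integrable fun z => C * (2 * η * ((∑ i, ‖Zt Y χ f e t z i‖ ^ 2) + ∑ i, ‖Z0 Y χ f e z i‖ ^ 2)) +
          C / η * ∑ i, ‖Zt Y χ f e t z i - Z0 Y χ f e z i‖ ^ 2 :=
      ((i34.const_mul (2 * η)).const_mul C).add (i5.const_mul (C / η))
    have h12 := integral_mono iL iR hle
    have e2 : ∫ z, (U (Zt Y χ f e t z) - U (Z0 Y χ f e z)) = Ph Y χ f e U t - ∫ z, U (Z0 Y χ f e z) := by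
      rw [integral_sub i1 i2]
      rfl
    have e3 : ∫ z, (C * (2 * η * ((∑ i, ‖Zt Y χ f e t z i‖ ^ 2) + ∑ i, ‖Z0 Y χ f e z i‖ ^ 2)) +
          C / η * ∑ i, ‖Zt Y χ f e t z i - Z0 Y χ f e z i‖ ^ 2) =
        C * (2 * η * ((∫ z, ∑ i, ‖Zt Y χ f e t z i‖ ^ 2) + K0)) + C / η * E t := by
      rw [integral_add ((i34.const_mul (2 * η)).const_mul C) (i5.const_mul (C / η)),
        integral_const_mul, integral_const_mul, integral_const_mul, integral_add i3 i4]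
    have h13 : Ph Y χ f e U t - ∫ z, U (Z0 Y χ f e z) ≤
        C * (2 * η * ((∫ z, ∑ i, ‖Zt Y χ f e t z i‖ ^ 2) + K0)) + C / η * E t := by
      rw [← e2, ← e3]
      exact h12
    have h14 : ∫ z, ∑ i, ‖Zt Y χ f e t z i‖ ^ 2 ≤ K := by
      refine (hK t ht).trans (mul_le_of_le_one_right hK0 (Real.exp_le_one_iff.2 ?_))
      have := mul_pos hδ ht
      linarith
    have h15 : C * (2 * η * ((∫ z, ∑ i, ‖Zt Y χ f e t z i‖ ^ 2) + K0)) ≤ C * (2 * η * (K + K0)) := by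
      refine mul_le_mul_of_nonneg_left ?_ hC0
      exact mul_le_mul_of_nonneg_left (by linarith) (by positivity)
    have := hpos t ht
    linarith
  have main2 : ∀ η : ℝ, 0 < η → -(C * (2 * η * (K + K0))) ≤ ∫ z, U (Z0 Y χ f e z) := by
    intro η hη
    have h1 : Tendsto (fun t => -(C * (2 * η * (K + K0)) + C / η * E t)) (𝓝[>] 0)
        (𝓝 (-(C * (2 * η * (K + K0)) + C / η * 0))) := ((hE0.const_mul _).const_add _).neg
    rw [mul_zero, add_zero] at h1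
    refine le_of_tendsto h1 ?_
    filter_upwards [self_mem_nhdsWithin] with t ht
    exact main η hη t ht
  have h2 : Tendsto (fun η : ℝ => -(C * (2 * η * (K + K0)))) (𝓝[>] 0) (𝓝 (-(C * (2 * 0 * (K + K0))))) := by
    apply Tendsto.mono_left _ nhdsWithin_le_nhds
    exact ((((tendsto_id.const_mul 2).mul_const _).const_mul C).neg)
  rw [mul_zero, zero_mul, mul_zero, neg_zero] at h2
  refine le_of_tendsto h2 ?_
  filter_upwards [self_mem_nhdsWithin] with η hη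
  exact main2 η hη

end Pool.Agent.Helper54.PH
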