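import Pool.Agent.Helper54.PH.Fin
import Pool.Agent.Helper54.PH.Form

set_option autoImplicit false

/-! The frame theorem for polynomial certificates with any number of factors. -/

noncomputable section

namespace Pool.Agent.Helper54.PH

open MeasureTheory Set Filter Topology Complex SchwartzMap
open Pool.Agent.Helper54.BF (Jb Db urb ulb)
open scoped ContDiff SchwartzMap ENNReal

variable {J : Type}

lemma norm_cj (b : Bool) (z : ℂ) : ‖cj b z‖ = ‖z‖ := by
  cases b
  · rfl
  · exact RCLike.norm_conj z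

/-- the derivative of a monomial along `V` -/
def dmono : Mn J → (J → ℂ) → (J → ℂ) → ℂ
  | [], _, _ => 0
  | a :: q, X, V => cj a.1 (V a.2) * mono q X + cj a.1 (X a.2) * dmono q X V

lemma mono_congr (q : Mn J) {X X' : J → ℂ} (h : ∀ a ∈ q, X a.2 = X' a.2) : mono q X = mono q X' := by
  induction q with
  | nil => rfl
  | cons a q ih =>
    rw [mono, mono, h a List.mem_cons_self, ih fun b hb => h b (List.mem_cons_of_mem _ hb)]

lemma dmono_congr (q : Mn J) {X X' V V' : J → ℂ} (h : ∀ a ∈ q, X a.2 = X' a.2)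
    (h' : ∀ a ∈ q, V a.2 = V' a.2) : dmono q X V = dmono q X' V' := by
  induction q with
  | nil => rfl
  | cons a q ih =>
    rw [dmono, dmono, h a List.mem_cons_self, h' a List.mem_cons_self,
      ih (fun b hb => h b (List.mem_cons_of_mem _ hb)) (fun b hb => h' b (List.mem_cons_of_mem _ hb)),
      mono_congr q fun b hb => h b (List.mem_cons_of_mem _ hb)]

/-! ### the forms as admissible functionals -/

variable {ι : Type} [Fintype ι] (g : J → ι)

/-- `cj` as a real linear map -/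
def cjL : Bool → ℂ →L[ℝ] ℂ
  | false => ContinuousLinearMap.id ℝ ℂ
  | true => Complex.conjCLE.toContinuousLinearMap

lemma cjL_apply (b : Bool) (z : ℂ) : cjL b z = cj b z := by
  cases b <;> rfl

/-- derivative of a monomial -/
def Dm : Mn J → (ι → ℂ) → ((ι → ℂ) →L[ℝ] ℂ)
  | [], _ => 0
  | a :: q, Z => cj a.1 (Z (g a.2)) • Dm q Z +
      mono q (fun j => Z (g j)) • ((cjL a.1).comp (ContinuousLinearMap.proj (g a.2)))

omit [Fintype ι] in
lemma Dm_apply (q : Mn J) (Z W : ι → ℂ) :
    Dm g q Z W = dmono q (fun j => Z (g j)) (fun j => W (g j)) := by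
  induction q with
  | nil => rfl
  | cons a q ih =>
    rw [Dm, dmono, _root_.add_apply, _root_.smul_apply,
      _root_.smul_apply, ih, ContinuousLinearMap.comp_apply,
      ContinuousLinearMap.proj_apply, cjL_apply, smul_eq_mul, smul_eq_mul]
    ring

lemma hasFDerivAt_mono (q : Mn J) (Z : ι → ℂ) :
    HasFDerivAt (fun Z : ι → ℂ => mono q (fun j => Z (g j))) (Dm g q Z) Z := by
  induction q with
  | nil => exact hasFDerivAt_const _ _
  | cons a q ih =>
    have h1 : HasFDerivAt (fun Z : ι → ℂ => cj a.1 (Z (g a.2)))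
        ((cjL a.1).comp (ContinuousLinearMap.proj (g a.2))) Z := by
      have h2 := ((cjL a.1).comp (ContinuousLinearMap.proj (R := ℝ) (φ := fun _ : ι => ℂ) (g a.2))).hasFDerivAt
        (x := Z)
      refine h2.congr_of_eventuallyEq (Eventually.of_forall fun W => ?_)
      rw [ContinuousLinearMap.comp_apply, ContinuousLinearMap.proj_apply, cjL_apply]
    exact h1.mul ih

lemma continuous_mono (q : Mn J) : Continuous fun Z : ι → ℂ => mono q (fun j => Z (g j)) :=
  continuous_iff_continuousAt.2 fun Z => (hasFDerivAt_mono g q Z).continuousAt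

lemma continuous_cj (b : Bool) : Continuous (cj b) := by
  cases b
  · exact continuous_id
  · exact Complex.continuous_conj

lemma continuous_Dm (q : Mn J) : Continuous (Dm g q) := by
  induction q with
  | nil => exact continuous_const
  | cons a q ih =>
    have h1 : Continuous fun Z : ι → ℂ => cj a.1 (Z (g a.2)) :=
      (continuous_cj a.1).comp (continuous_apply _)
    exact (h1.smul ih).add ((continuous_mono g q).smul continuous_const)

lemma norm_cjL_le (b : Bool) (i : ι) :
    ‖(cjL b).comp (ContinuousLinearMap.proj (R := ℝ) (φ := fun _ : ι => ℂ) i)‖ ≤ 1 := by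
  refine ContinuousLinearMap.opNorm_le_bound _ zero_le_one fun W => ?_
  rw [ContinuousLinearMap.comp_apply, ContinuousLinearMap.proj_apply, cjL_apply, norm_cj, one_mul]
  exact norm_le_pi_norm W i

lemma mono_bd (q : Mn J) (R : ℝ) (hR : 0 ≤ R) : ∃ C : ℝ, 0 ≤ C ∧ ∀ Z : ι → ℂ, ‖Z‖ ≤ R →
    ‖mono q (fun j => Z (g j))‖ ≤ C := by
  induction q with
  | nil => exact ⟨1, zero_le_one, fun Z _ => by simp [mono]⟩
  | cons a q ih =>
    obtain ⟨C, hC0, hC⟩ := ih
    refine ⟨R * C, by positivity, fun Z hZ => ?_⟩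
    rw [mono, norm_mul, norm_cj]
    exact mul_le_mul ((norm_le_pi_norm Z _).trans hZ) (hC Z hZ) (norm_nonneg _) hR

lemma mono_bd1 (q : Mn J) (hq : 1 ≤ q.length) (R : ℝ) (hR : 0 ≤ R) : ∃ C : ℝ, 0 ≤ C ∧
    ∀ Z : ι → ℂ, ‖Z‖ ≤ R → ‖mono q (fun j => Z (g j))‖ ≤ C * ‖Z‖ := by
  cases q with
  | nil => simp at hq
  | cons a q =>
    obtain ⟨C, hC0, hC⟩ := mono_bd g q R hR
    refine ⟨C, hC0, fun Z hZ => ?_⟩
    rw [mono, norm_mul, norm_cj, mul_comm C]
    exact mul_le_mul (norm_le_pi_norm Z _) (hC Z hZ) (norm_nonneg _) (norm_nonneg _)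

lemma Dm_bd (q : Mn J) (R : ℝ) (hR : 0 ≤ R) : ∃ C : ℝ, 0 ≤ C ∧ ∀ Z : ι → ℂ, ‖Z‖ ≤ R →
    ‖Dm g q Z‖ ≤ C := by
  induction q with
  | nil => exact ⟨0, le_rfl, fun Z _ => by simp [Dm]⟩
  | cons a q ih =>
    obtain ⟨C, hC0, hC⟩ := ih
    obtain ⟨C', hC0', hC'⟩ := mono_bd g q R hR
    refine ⟨R * C + C' * 1, by positivity, fun Z hZ => ?_⟩
    rw [Dm]
    refine (norm_add_le _ _).trans (add_le_add ?_ ?_)
    · rw [norm_smul, norm_cj]
      exact mul_le_mul ((norm_le_pi_norm Z _).trans hZ) (hC Z hZ) (norm_nonneg _) hR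
    · rw [norm_smul]
      exact mul_le_mul (hC' Z hZ) (norm_cjL_le _ _) (norm_nonneg _) hC0'

lemma Dm_bd2 (q : Mn J) (hq : 2 ≤ q.length) (R : ℝ) (hR : 0 ≤ R) : ∃ C : ℝ, 0 ≤ C ∧
    ∀ Z : ι → ℂ, ‖Z‖ ≤ R → ‖Dm g q Z‖ ≤ C * ‖Z‖ := by
  cases q with
  | nil => simp at hq
  | cons a q =>
    have hq1 : 1 ≤ q.length := by simpa using hq
    obtain ⟨C, hC0, hC⟩ := Dm_bd g q R hR
    obtain ⟨C', hC0', hC'⟩ := mono_bd1 g q hq1 R hR
    refine ⟨C + C', by positivity, fun Z hZ => ?_⟩
    rw [Dm, add_mul]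
    refine (norm_add_le _ _).trans (add_le_add ?_ ?_)
    · rw [norm_smul, norm_cj, mul_comm C]
      exact mul_le_mul (norm_le_pi_norm Z _) (hC Z hZ) (norm_nonneg _) (norm_nonneg _)
    · rw [norm_smul]
      have h1 := mul_le_mul (hC' Z hZ) (norm_cjL_le a.1 (g a.2)) (norm_nonneg _)
        (mul_nonneg hC0' (norm_nonneg Z))
      rwa [mul_one] at h1

lemma mono_zero (q : Mn J) (hq : 1 ≤ q.length) : mono q (fun _ => (0 : ℂ)) = 0 := by
  cases q with
  | nil => simp at hq
  | cons a q =>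
    rw [mono]
    cases a.1 <;> simp [cj]

/-- `c * Re` composed with the derivative, for a linear functional `ell` on `ℂ` -/
def UL (ell : ℂ →L[ℝ] ℝ) (L : Fk ℝ J) (Z : ι → ℂ) : ℝ :=
  (L.map fun r => r.1 * ell (mono r.2 (fun j => Z (g j)))).sum

/-- the derivative -/
def UL' (ell : ℂ →L[ℝ] ℝ) : Fk ℝ J → (ι → ℂ) → ((ι → ℂ) →L[ℝ] ℝ)
  | [], _ => 0
  | r :: L, Z => r.1 • (ell.comp (Dm g r.2 Z)) + UL' ell L Z

lemma UL'_apply (ell : ℂ →L[ℝ] ℝ) (L : Fk ℝ J) (Z W : ι → ℂ) : UL' g ell L Z W =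
    (L.map fun r => r.1 * ell (dmono r.2 (fun j => Z (g j)) (fun j => W (g j)))).sum := by
  induction L with
  | nil => rfl
  | cons r L ih =>
    rw [UL', _root_.add_apply, _root_.smul_apply,
      ContinuousLinearMap.comp_apply, Dm_apply, ih, List.map_cons, List.sum_cons, smul_eq_mul]

lemma adm_UL (ell : ℂ →L[ℝ] ℝ) (L : Fk ℝ J) (hL : ∀ r ∈ L, 2 ≤ r.2.length) :
    Adm (UL g ell L) (UL' g ell L) := by
  induction L with
  | nil =>
    refine ⟨rfl, fun Z => hasFDerivAt_const _ _, continuous_const, fun R => ⟨0, le_rfl, fun Z _ => ?_⟩⟩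
    simp [UL']
  | cons r L ih =>
    have ih' := ih fun s hs => hL s (List.mem_cons_of_mem _ hs)
    have hr := hL r List.mem_cons_self
    have e : UL g ell (r :: L) = fun Z => r.1 * ell (mono r.2 (fun j => Z (g j))) + UL g ell L Z := by
      funext Z
      simp [UL]
    refine ⟨?_, fun Z => ?_, ?_, fun R => ?_⟩
    · rw [e]
      simp only []
      rw [ih'.z]
      have : mono r.2 (fun j => (0 : ι → ℂ) (g j)) = 0 := mono_zero r.2 (by omega)
      rw [this, map_zero, mul_zero, add_zero]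
    · rw [e, UL']
      exact (((ell.hasFDerivAt.comp Z (hasFDerivAt_mono g r.2 Z)).const_mul r.1)).add (ih'.d Z)
    · have h1 : Continuous fun Z => r.1 • (ell.comp (Dm g r.2 Z)) :=
        (((ContinuousLinearMap.compL ℝ (ι → ℂ) ℂ ℝ ell).continuous).comp
          (continuous_Dm g r.2)).const_smul r.1
      exact h1.add ih'.c
    · obtain ⟨C, hC0, hC⟩ := ih'.b R
      obtain ⟨C', hC0', hC'⟩ := Dm_bd2 g r.2 hr (max R 0) (le_max_right _ _)
      refine ⟨|r.1| * (‖ell‖ * C') + C, by positivity, fun Z hZ => ?_⟩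
      rw [UL', add_mul]
      refine (norm_add_le _ _).trans (add_le_add ?_ (hC Z hZ))
      rw [norm_smul, Real.norm_eq_abs, mul_assoc]
      refine mul_le_mul_of_nonneg_left ?_ (abs_nonneg _)
      refine (ContinuousLinearMap.opNorm_comp_le _ _).trans ?_
      rw [mul_assoc]
      exact mul_le_mul_of_nonneg_left (hC' Z (hZ.trans (le_max_left _ _))) (norm_nonneg _)

/-! ### derivations on forms -/

lemma ev_cons (c : ℝ × Mn J) (L : Fk ℝ J) (X : J → ℂ) :
    ev (c :: L) X = c.1 * (mono c.2 X).re + ev L X := by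
  simp [ev]

lemma ev_append (L L' : Fk ℝ J) (X : J → ℂ) : ev (L ++ L') X = ev L X + ev L' X := by
  simp [ev]

lemma ev_sc (a : ℝ) (L : Fk ℝ J) (X : J → ℂ) : ev (sc a L) X = a * ev L X := by
  induction L with
  | nil => simp [sc, ev]
  | cons c L ih =>
    have : sc a (c :: L) = (a * c.1, c.2) :: sc a L := rfl
    rw [this, ev_cons, ev_cons, ih]
    ring

/-- complex value of a form -/
def evC (L : Fk ℝ J) (X : J → ℂ) : ℂ := (L.map fun c => (c.1 : ℂ) * mono c.2 X).sum

lemma evC_append (L L' : Fk ℝ J) (X : J → ℂ) : evC (L ++ L') X = evC L X + evC L' X := by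
  simp [evC]

lemma evC_re (L : Fk ℝ J) (X : J → ℂ) : (evC L X).re = ev L X := by
  induction L with
  | nil => simp [evC, ev]
  | cons c L ih =>
    have : evC (c :: L) X = (c.1 : ℂ) * mono c.2 X + evC L X := by simp [evC]
    rw [this, Complex.add_re, ih, ev_cons, Complex.re_ofReal_mul]

lemma evC_consF (a : Bool × J) (L : Fk ℝ J) (X : J → ℂ) :
    evC (consF a L) X = cj a.1 (X a.2) * evC L X := by
  induction L with
  | nil => simp [consF, evC]
  | cons c L ih =>
    have e1 : evC (consF a (c :: L)) X = (c.1 : ℂ) * mono (a :: c.2) X + evC (consF a L) X := by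
      simp [consF, evC]
    have e2 : evC (c :: L) X = (c.1 : ℂ) * mono c.2 X + evC L X := by simp [evC]
    rw [e1, e2, ih, mono]
    ring

lemma cj_lc (b : Bool) (L : List (ℝ × J)) (X : J → ℂ) :
    cj b (lc L X) = (L.map fun a => (a.1 : ℂ) * cj b (X a.2)).sum := by
  cases b
  · rfl
  · induction L with
    | nil => simp [lc, cj]
    | cons a L ih =>
      rw [lc_cons]
      simp only [cj, map_add, map_mul, Complex.conj_ofReal, List.map_cons, List.sum_cons] at ih ⊢
      rw [ih]

/-- the derivative along the flow is the derivation -/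
lemma dmono_D (D : J → List (ℝ × J)) (c : ℝ) (q : Mn J) (X : J → ℂ) :
    (c : ℂ) * dmono q X (fun j => lc (D j) X) = evC (der1 D c q) X := by
  induction q with
  | nil => simp [dmono, der1, evC]
  | cons a q ih =>
    rw [dmono, der1, evC_append, evC_consF, ← ih, cj_lc]
    have e : evC ((D a.2).map fun b => (c * b.1, (a.1, b.2) :: q)) X =
        (c : ℂ) * ((((D a.2).map fun b => (b.1 : ℂ) * cj a.1 (X b.2)).sum) * mono q X) := by
      generalize D a.2 = L
      induction L with
      | nil => simp [evC]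
      | cons b L ih2 =>
        have e1 : evC (((b :: L) : List (ℝ × J)).map fun b => (c * b.1, (a.1, b.2) :: q)) X =
            ((c * b.1 : ℝ) : ℂ) * mono ((a.1, b.2) :: q) X +
              evC (L.map fun b => (c * b.1, (a.1, b.2) :: q)) X := by
          simp [evC]
        rw [e1, ih2, mono, List.map_cons, List.sum_cons]
        push_cast
        ring
    rw [e]
    ring

/-- the divergence is the derivation `2 t d/dz` -/
lemma dmono_Z (ur ul : J → J) (c : ℝ) (q : Mn J) (X : J → ℂ) :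
    (c : ℂ) * (dmono q X (fun j => X (ur j) - X (ul j)) -
      I * dmono q X (fun j => I * (X (ur j) + X (ul j)))) = 2 * evC (dz1 ur ul c q) X := by
  induction q with
  | nil => simp [dmono, dz1, evC]
  | cons a q ih =>
    obtain ⟨b, j⟩ := a
    have hI : I * I = -1 := Complex.I_mul_I
    cases b with
    | false =>
      have e1 : evC (dz1 ur ul c ((false, j) :: q)) X =
          (c : ℂ) * mono ((false, ur j) :: q) X + evC (consF (false, j) (dz1 ur ul c q)) X := by
        simp [evC, dz1]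
      rw [e1, evC_consF, mono, dmono, dmono]
      simp only [cj]
      have e2 : 2 * (X j * evC (dz1 ur ul c q) X) = X j * (2 * evC (dz1 ur ul c q) X) := by ring
      rw [mul_add 2, e2, ← ih]
      linear_combination (-(c : ℂ) * (X (ur j) + X (ul j)) * mono q X) * hI
    | true =>
      have e1 : evC (dz1 ur ul c ((true, j) :: q)) X =
          ((-c : ℝ) : ℂ) * mono ((true, ul j) :: q) X + evC (consF (true, j) (dz1 ur ul c q)) X := by
        simp [evC, dz1]
      rw [e1, evC_consF, mono, dmono, dmono]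
      simp only [cj, map_sub, map_mul, map_add, Complex.conj_I]
      have e2 : 2 * (starRingEnd ℂ (X j) * evC (dz1 ur ul c q) X) =
          starRingEnd ℂ (X j) * (2 * evC (dz1 ur ul c q) X) := by ring
      rw [mul_add 2, e2, ← ih]
      push_cast
      linear_combination ((c : ℂ) * (starRingEnd ℂ (X (ur j)) + starRingEnd ℂ (X (ul j))) * mono q X) * hI

lemma ev_apD (D : J → List (ℝ × J)) (L : Fk ℝ J) (X : J → ℂ) :
    ev (apD D L) X = (L.map fun r => r.1 * (dmono r.2 X (fun j => lc (D j) X)).re).sum := by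
  induction L with
  | nil => simp [apD, ev]
  | cons r L ih =>
    have e1 : apD D (r :: L) = der1 D r.1 r.2 ++ apD D L := rfl
    rw [e1, ev_append, ih, List.map_cons, List.sum_cons, ← evC_re, ← dmono_D, Complex.re_ofReal_mul]

lemma ev_apZ (ur ul : J → J) (L : Fk ℝ J) (X : J → ℂ) : 2 * ev (apZ ur ul L) X =
    (L.map fun r => r.1 * (dmono r.2 X (fun j => X (ur j) - X (ul j))).re).sum +
    (L.map fun r => r.1 * (dmono r.2 X (fun j => I * (X (ur j) + X (ul j)))).im).sum := by
  induction L with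
  | nil => simp [apZ, ev]
  | cons r L ih =>
    have e1 : apZ ur ul (r :: L) = dz1 ur ul r.1 r.2 ++ apZ ur ul L := rfl
    have h1 := congrArg Complex.re (dmono_Z ur ul r.1 r.2 X)
    have e2 : (2 * evC (dz1 ur ul r.1 r.2) X).re = 2 * ev (dz1 ur ul r.1 r.2) X := by
      rw [← evC_re]
      simp
    rw [e2, Complex.re_ofReal_mul, Complex.sub_re, Complex.I_mul_re] at h1
    rw [e1, ev_append, mul_add, ih, ← h1, List.map_cons, List.sum_cons, List.map_cons, List.sum_cons]
    ring

/-! ### the frame theorem -/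

lemma two_spec {R : Type} [Ring R] {L : Fk R J} (h : two L = true) : ∀ r ∈ L, 2 ≤ r.2.length := by
  intro r hr
  rw [two, List.all_eq_true] at h
  simpa using h r hr

/-- polynomial certificates are certificates -/
lemma certB_poly (s : ℝ) (U M : Fk ℝ Jb) (hU : two U = true) (hM : two M = true)
    (hR : ∀ X : Jb → ℂ, 0 ≤ ev (body (Db s) urb ulb U M) X) :
    ∃ (ι : Type) (_ : Fintype ι) (e : ι → Jb) (V : (ι → ℂ) → ℝ), CertB s e V ∧
      ∀ X : Jb → ℂ, V (fun i => X (e i)) = ev U X := by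
  classical
  set S : Finset Jb := insert (0, 0, false) (((U ++ M).flatMap fun r => r.2.map Prod.snd).toFinset) with hS
  have hmem : ∀ r ∈ U ++ M, ∀ a ∈ r.2, a.2 ∈ S := by
    intro r hr a ha
    rw [hS, Finset.mem_insert, List.mem_toFinset, List.mem_flatMap]
    exact Or.inr ⟨r, hr, List.mem_map.2 ⟨a, ha, rfl⟩⟩
  have h0 : ((0, 0, false) : Jb) ∈ S := Finset.mem_insert_self _ _
  set g : Jb → {j // j ∈ S} := fun j => if hj : j ∈ S then ⟨j, hj⟩ else ⟨(0, 0, false), h0⟩ with hg
  have hge : ∀ j ∈ S, ((g j : {j // j ∈ S}) : Jb) = j := by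
    intro j hj
    rw [hg]
    simp only []
    rw [dif_pos hj]
  refine ⟨{j // j ∈ S}, inferInstance, fun i => (i : Jb), UL g Complex.reCLM U, ?_, fun X => ?_⟩
  · refine ⟨UL' g Complex.reCLM U, UL g ((1 / 2 : ℝ) • Complex.reCLM) M,
      UL g ((1 / 2 : ℝ) • Complex.imCLM) M, UL' g ((1 / 2 : ℝ) • Complex.reCLM) M,
      UL' g ((1 / 2 : ℝ) • Complex.imCLM) M, adm_UL g _ U (two_spec hU), adm_UL g _ M (two_spec hM),
      adm_UL g _ M (two_spec hM), fun X => ?_⟩
    have h1 := hR X
    rw [body, ev_append, ev_sc] at h1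
    have e1 : UL' g Complex.reCLM U (fun i => X (i : Jb)) (fun i => lc (Db s (i : Jb)) X) =
        ev (apD (Db s) U) X := by
      rw [UL'_apply, ev_apD]
      congr 1
      refine List.map_congr_left fun r hr => ?_
      rw [dmono_congr (X' := X) (V' := fun j => lc (Db s j) X) r.2]
      · rfl
      · intro a ha
        exact congrArg X (hge _ (hmem r (List.mem_append_left _ hr) a ha))
      · intro a ha
        exact congrArg (fun j => lc (Db s j) X) (hge _ (hmem r (List.mem_append_left _ hr) a ha))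
    have e2 : UL' g ((1 / 2 : ℝ) • Complex.reCLM) M (fun i => X (i : Jb))
          (fun i => X (urb (i : Jb)) - X (ulb (i : Jb))) +
        UL' g ((1 / 2 : ℝ) • Complex.imCLM) M (fun i => X (i : Jb))
          (fun i => I * (X (urb (i : Jb)) + X (ulb (i : Jb)))) = ev (apZ urb ulb M) X := by
      have e3 := ev_apZ urb ulb M X
      have e4 : UL' g ((1 / 2 : ℝ) • Complex.reCLM) M (fun i => X (i : Jb))
          (fun i => X (urb (i : Jb)) - X (ulb (i : Jb))) = 1 / 2 *
          (M.map fun r => r.1 * (dmono r.2 X (fun j => X (urb j) - X (ulb j))).re).sum := by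
        rw [UL'_apply, ← List.sum_map_mul_left]
        congr 1
        refine List.map_congr_left fun r hr => ?_
        rw [dmono_congr (X' := X) (V' := fun j => X (urb j) - X (ulb j)) r.2]
        · simp only [_root_.smul_apply, Complex.reCLM_apply, smul_eq_mul]
          ring
        · intro a ha
          exact congrArg X (hge _ (hmem r (List.mem_append_right _ hr) a ha))
        · intro a ha
          exact congrArg (fun j => X (urb j) - X (ulb j))
            (hge _ (hmem r (List.mem_append_right _ hr) a ha))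
      have e5 : UL' g ((1 / 2 : ℝ) • Complex.imCLM) M (fun i => X (i : Jb))
          (fun i => I * (X (urb (i : Jb)) + X (ulb (i : Jb)))) = 1 / 2 *
          (M.map fun r => r.1 * (dmono r.2 X (fun j => I * (X (urb j) + X (ulb j)))).im).sum := by
        rw [UL'_apply, ← List.sum_map_mul_left]
        congr 1
        refine List.map_congr_left fun r hr => ?_
        rw [dmono_congr (X' := X) (V' := fun j => I * (X (urb j) + X (ulb j))) r.2]
        · simp only [_root_.smul_apply, Complex.imCLM_apply, smul_eq_mul]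
          ring
        · intro a ha
          exact congrArg X (hge _ (hmem r (List.mem_append_right _ hr) a ha))
        · intro a ha
          exact congrArg (fun j => I * (X (urb j) + X (ulb j)))
            (hge _ (hmem r (List.mem_append_right _ hr) a ha))
      rw [e4, e5]
      linarith
    rw [e1, e2]
    linarith
  · rw [UL, ev]
    congr 1
    refine List.map_congr_left fun r hr => ?_
    rw [mono_congr (X' := X) r.2]
    · rfl
    · intro a ha
      exact congrArg X (hge _ (hmem r (List.mem_append_left _ hr) a ha))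

/-- FRAME THEOREM, polynomial certificates with any number of factors, real coefficients -/
theorem frameK (s : ℝ) (hs : 1 < s) (n p : ℕ) (hp : 2 ≤ p) (U M : Fk ℝ Jb) (A B C : ℝ)
    (hU2 : two U = true) (hM2 : two M = true)
    (hR : ∀ X : Jb → ℂ, 0 ≤ ev (body (Db s) urb ulb U M) X)
    (hM : ∀ X : Jb → ℂ, (∀ j : Jb, j.1 ≠ 0 ∨ j.2.2 = true → X j = 0) →
      ev U X + B * ‖X (0, 2 * (n : ℤ), false)‖ ^ p ≤ A * ‖X (0, 0, false)‖ ^ p)
    (hB : 0 < B) (hC : 0 ≤ C) (hA : A ≤ B * C ^ p) (f : 𝓢(ℂ, ℂ)) :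
    eLpNorm
        (fun z : ℂ => ∫ ξ : ℂ,
          Complex.exp (2 * (Real.pi : ℂ) * Complex.I * ((z.re * ξ.re + z.im * ξ.im : ℝ) : ℂ)) *
            ((starRingEnd ℂ ξ / ξ) ^ n *
              ∫ w : ℂ, Complex.exp (-(2 * (Real.pi : ℂ) * Complex.I *
                ((w.re * ξ.re + w.im * ξ.im : ℝ) : ℂ))) * f w))
        (ENNReal.ofReal (p : ℝ)) MeasureTheory.volume
      ≤ ENNReal.ofReal C *
        MeasureTheory.eLpNorm (fun z : ℂ => f z) (ENNReal.ofReal (p : ℝ)) MeasureTheory.volume := by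
  obtain ⟨ι, _, e, V, hV, hVU⟩ := certB_poly s U M hU2 hM2 hR
  have hp' : (2 : ℝ) ≤ (p : ℝ) := by exact_mod_cast hp
  refine frameP s hs n (p : ℝ) hp' e A B C hB hC (by rw [Real.rpow_natCast]; exact hA)
    (fun R η hη => ⟨V, hV, fun X hX _ => ?_⟩) f
  rw [hVU X, Real.rpow_natCast, Real.rpow_natCast]
  have h1 := hM X hX
  have h2 : 0 ≤ η * ∑ i, ‖X (e i)‖ ^ 2 :=
    mul_nonneg hη.le (Finset.sum_nonneg fun i _ => by positivity)
  linarith

/-! ### integer certificates -/

lemma rl_append (L L' : Fk ℤ J) : rl (L ++ L') = rl L ++ rl L' := by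
  simp [rl]

lemma rl_sc (a : ℤ) (L : Fk ℤ J) : rl (sc a L) = sc (a : ℝ) (rl L) := by
  simp [rl, sc, Function.comp_def]

lemma rl_consF (a : Bool × J) (L : Fk ℤ J) : rl (consF a L) = consF a (rl L) := by
  simp [rl, consF, Function.comp_def]

lemma rl_dz1 (ur ul : J → J) (c : ℤ) (q : Mn J) : rl (dz1 ur ul c q) = dz1 ur ul (c : ℝ) q := by
  induction q with
  | nil => rfl
  | cons a q ih =>
    obtain ⟨b, j⟩ := a
    cases b
    · have e1 : rl (dz1 ur ul c ((false, j) :: q)) =
          ((c : ℝ), (false, ur j) :: q) :: rl (consF (false, j) (dz1 ur ul c q)) := rfl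
      rw [e1, rl_consF, ih]
      rfl
    · have e1 : rl (dz1 ur ul c ((true, j) :: q)) =
          (((-c : ℤ) : ℝ), (true, ul j) :: q) :: rl (consF (true, j) (dz1 ur ul c q)) := rfl
      rw [e1, rl_consF, ih]
      push_cast
      rfl

lemma rl_apZ (ur ul : J → J) (L : Fk ℤ J) : rl (apZ ur ul L) = apZ ur ul (rl L) := by
  induction L with
  | nil => rfl
  | cons r L ih =>
    have e1 : apZ ur ul (r :: L) = dz1 ur ul r.1 r.2 ++ apZ ur ul L := rfl
    have e2 : apZ ur ul (rl (r :: L)) = dz1 ur ul (r.1 : ℝ) r.2 ++ apZ ur ul (rl L) := rfl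
    rw [e1, e2, rl_append, ih, rl_dz1]

lemma sc_consF {R : Type} [Ring R] (a : R) (b : Bool × J) (L : Fk R J) :
    sc a (consF b L) = consF b (sc a L) := by
  simp [sc, consF, Function.comp_def]

lemma dz1_sc (ur ul : J → J) (a c : ℝ) (q : Mn J) :
    dz1 ur ul (a * c) q = sc a (dz1 ur ul c q) := by
  induction q with
  | nil => rfl
  | cons b q ih =>
    obtain ⟨b, j⟩ := b
    cases b
    · have e1 : sc a (dz1 ur ul c ((false, j) :: q)) =
          (a * c, (false, ur j) :: q) :: sc a (consF (false, j) (dz1 ur ul c q)) := rfl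
      rw [e1, sc_consF, ← ih]
      rfl
    · have e1 : sc a (dz1 ur ul c ((true, j) :: q)) =
          (a * -c, (true, ul j) :: q) :: sc a (consF (true, j) (dz1 ur ul c q)) := rfl
      rw [e1, sc_consF, ← ih, mul_neg]
      rfl

lemma apZ_sc (ur ul : J → J) (a : ℝ) (L : Fk ℝ J) : apZ ur ul (sc a L) = sc a (apZ ur ul L) := by
  induction L with
  | nil => rfl
  | cons r L ih =>
    have e1 : apZ ur ul (sc a (r :: L)) = dz1 ur ul (a * r.1) r.2 ++ apZ ur ul (sc a L) := rfl
    have e2 : sc a (apZ ur ul (r :: L)) = sc a (dz1 ur ul r.1 r.2) ++ sc a (apZ ur ul L) := by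
      simp [sc, apZ]
    rw [e1, e2, ih, dz1_sc]

/-- `DbN N sN` is `N Db (sN / N)` -/
lemma ev_apDN (N sN : ℤ) (hN : 0 < N) (L : Fk ℤ Jb) (X : Jb → ℂ) :
    ev (rl (apD (DbN N sN) L)) X = N * ev (apD (Db ((sN : ℝ) / N)) (rl L)) X := by
  have hN' : (N : ℝ) ≠ 0 := by exact_mod_cast hN.ne'
  have hN'' : (N : ℂ) ≠ 0 := by exact_mod_cast hN.ne'
  have key : ∀ (c : ℤ) (q : Mn Jb), evC (rl (der1 (DbN N sN) c q)) X =
      (N : ℂ) * evC (der1 (Db ((sN : ℝ) / N)) (c : ℝ) q) X := by
    intro c q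
    induction q with
    | nil => simp [der1, rl, evC]
    | cons a q ih =>
      rw [der1, der1, rl_append, evC_append, evC_append, rl_consF, evC_consF, evC_consF, ih]
      obtain ⟨b, d, k, e⟩ := a
      cases e
      · simp only [DbN, Db, rl, evC, List.map_cons, List.map_nil, List.sum_cons, List.sum_nil]
        push_cast
        ring
      · simp only [DbN, Db, rl, evC, List.map_cons, List.map_nil, List.sum_cons, List.sum_nil]
        push_cast
        field_simp
        ring
  induction L with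
  | nil => simp [apD, rl, ev]
  | cons r L ih =>
    have e1 : apD (DbN N sN) (r :: L) = der1 (DbN N sN) r.1 r.2 ++ apD (DbN N sN) L := rfl
    have e2 : apD (Db ((sN : ℝ) / N)) (rl (r :: L)) =
        der1 (Db ((sN : ℝ) / N)) (r.1 : ℝ) r.2 ++ apD (Db ((sN : ℝ) / N)) (rl L) := rfl
    rw [e1, e2, rl_append, ev_append, ev_append, ih, mul_add, ← evC_re, key, ← evC_re]
    congr 1
    have : (N : ℂ) = ((N : ℝ) : ℂ) := by push_cast; rfl
    rw [this, Complex.re_ofReal_mul, evC_re]

/-- FRAME THEOREM, integer certificates with any number of factors, `N s = sN`; `M` is `N` times the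
divergence field -/
theorem frameKZ (N sN : ℤ) (hN : 0 < N) (hs : N < sN) (n p : ℕ) (hp : 2 ≤ p) (U M : Fk ℤ Jb)
    (A B C : ℝ) (hU2 : two U = true) (hM2 : two M = true)
    (hR : ∀ X : Jb → ℂ, 0 ≤ ev (rl (body (DbN N sN) urb ulb U M)) X)
    (hM : ∀ X : Jb → ℂ, (∀ j : Jb, j.1 ≠ 0 ∨ j.2.2 = true → X j = 0) →
      ev (rl U) X + B * ‖X (0, 2 * (n : ℤ), false)‖ ^ p ≤ A * ‖X (0, 0, false)‖ ^ p)
    (hB : 0 < B) (hC : 0 ≤ C) (hA : A ≤ B * C ^ p) (f : 𝓢(ℂ, ℂ)) :
    eLpNorm
        (fun z : ℂ => ∫ ξ : ℂ,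
          Complex.exp (2 * (Real.pi : ℂ) * Complex.I * ((z.re * ξ.re + z.im * ξ.im : ℝ) : ℂ)) *
            ((starRingEnd ℂ ξ / ξ) ^ n *
              ∫ w : ℂ, Complex.exp (-(2 * (Real.pi : ℂ) * Complex.I *
                ((w.re * ξ.re + w.im * ξ.im : ℝ) : ℂ))) * f w))
        (ENNReal.ofReal (p : ℝ)) MeasureTheory.volume
      ≤ ENNReal.ofReal C *
        MeasureTheory.eLpNorm (fun z : ℂ => f z) (ENNReal.ofReal (p : ℝ)) MeasureTheory.volume := by
  have hN' : (0 : ℝ) < (N : ℝ) := by exact_mod_cast hN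
  have hs' : (1 : ℝ) < (sN : ℝ) / N := by
    rw [lt_div_iff₀ hN', one_mul]
    exact_mod_cast hs
  have t1 : two (rl U) = true := by
    rw [two, List.all_eq_true] at hU2 ⊢
    intro r hr
    obtain ⟨c, hc, rfl⟩ := List.mem_map.1 hr
    exact hU2 c hc
  have t2 : two (sc (1 / (N : ℝ)) (rl M)) = true := by
    rw [two, List.all_eq_true] at hM2 ⊢
    intro r hr
    obtain ⟨c, hc, rfl⟩ := List.mem_map.1 hr
    obtain ⟨c', hc', rfl⟩ := List.mem_map.1 hc
    exact hM2 c' hc'
  refine frameK ((sN : ℝ) / N) hs' n p hp (rl U) (sc (1 / (N : ℝ)) (rl M)) A B C t1 t2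
    (fun X => ?_) hM hB hC hA f
  have h1 := hR X
  rw [body, rl_append, rl_sc, rl_apZ, ev_append, ev_sc, ev_apDN N sN hN] at h1
  rw [body, ev_append, ev_sc, apZ_sc, ev_sc]
  push_cast at h1
  have h2 : 0 ≤ (1 / (N : ℝ)) * (-1 * (N * ev (apD (Db ((sN : ℝ) / N)) (rl U)) X) +
      ev (apZ urb ulb (rl M)) X) := mul_nonneg (by positivity) h1
  have h3 : (1 / (N : ℝ)) * (-1 * (N * ev (apD (Db ((sN : ℝ) / N)) (rl U)) X) +
      ev (apZ urb ulb (rl M)) X) = -1 * ev (apD (Db ((sN : ℝ) / N)) (rl U)) X +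
      (1 / (N : ℝ)) * ev (apZ urb ulb (rl M)) X := by
    field_simp
  rw [h3] at h2
  exact h2

end Pool.Agent.Helper54.PH
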